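import Mathlib

set_option autoImplicit false
open MeasureTheory intervalIntegral Real Set Polynomial

namespace Pool.Agent.H89.Cheb

/-- A family of angles is (nearly) exact up to degree `q`. -/
def NearExact {ι : Type*} [Fintype ι] (ε : ℝ) (q : ℕ) (x : ι → ℝ) : Prop :=
  ∀ g : ℝ[X], g.natDegree ≤ q →
    |∑ i, g.eval (cos (x i)) - (Fintype.card ι / 2 : ℝ) * ∫ t in (0:ℝ)..π, g.eval (cos t) * sin t|
      ≤ ε * (Fintype.card ι / q) * ∫ t in (0:ℝ)..π, |g.derivative.eval (cos t)| * sin t ^ 2

/-- A family of angles is exact up to degree `p`. -/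
def Exact {ι : Type*} [Fintype ι] (p : ℕ) (x : ι → ℝ) : Prop :=
  ∀ g : ℝ[X], g.natDegree ≤ p →
    ∑ i, g.eval (cos (x i)) = (Fintype.card ι / 2 : ℝ) * ∫ t in (0:ℝ)..π, g.eval (cos t) * sin t

/-- cosine representation of a polynomial in `cos ψ` -/
lemma exists_cos_coeff (d : ℕ) : ∀ (f : ℝ[X]), f.natDegree ≤ d →
    ∃ a : ℕ → ℝ, ∀ ψ : ℝ, f.eval (cos ψ) = ∑ n ∈ Finset.range (d + 1), a n * cos (n * ψ) := by
  induction d with
  | zero =>
    intro f hf
    refine ⟨fun _ => f.coeff 0, fun ψ => ?_⟩
    rw [Polynomial.eq_C_of_natDegree_le_zero hf]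
    simp
  | succ d ih =>
    intro f hf
    have hT : (Polynomial.Chebyshev.T ℝ ((d + 1 : ℕ) : ℤ)).natDegree = d + 1 := by
      rw [Polynomial.Chebyshev.natDegree_T]; rfl
    have hT0 : (Polynomial.Chebyshev.T ℝ ((d + 1 : ℕ) : ℤ)).coeff (d + 1) ≠ 0 := by
      have : (Polynomial.Chebyshev.T ℝ ((d + 1 : ℕ) : ℤ)).leadingCoeff ≠ 0 := by
        rw [Polynomial.leadingCoeff_ne_zero]
        exact Polynomial.Chebyshev.T_ne_zero ℝ _
      rwa [Polynomial.leadingCoeff, hT] at this
    set T := Polynomial.Chebyshev.T ℝ ((d + 1 : ℕ) : ℤ) with hTdef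
    set c := f.coeff (d + 1) / T.coeff (d + 1) with hc
    have hg : (f - Polynomial.C c * T).natDegree ≤ d := by
      have h1 : (f - Polynomial.C c * T).natDegree ≤ d + 1 := by
        refine (Polynomial.natDegree_sub_le _ _).trans (max_le hf ?_)
        exact (Polynomial.natDegree_C_mul_le _ _).trans hT.le
      rw [Polynomial.natDegree_le_iff_coeff_eq_zero]
      intro N hN
      rcases Nat.lt_or_ge (d + 1) N with h | h
      · exact Polynomial.coeff_eq_zero_of_natDegree_lt (lt_of_le_of_lt h1 h)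
      · have : N = d + 1 := by omega
        subst this
        rw [Polynomial.coeff_sub, Polynomial.coeff_C_mul, hc]
        field_simp
        ring
    obtain ⟨a, ha⟩ := ih _ hg
    refine ⟨fun n => if n = d + 1 then c else a n, fun ψ => ?_⟩
    have h2 : f.eval (cos ψ) = (f - Polynomial.C c * T).eval (cos ψ) + c * cos ((d + 1 : ℕ) * ψ) := by
      rw [Polynomial.eval_sub, Polynomial.eval_mul, Polynomial.eval_C, hTdef,
        Polynomial.Chebyshev.T_real_cos]
      push_cast
      ring
    rw [h2, ha ψ, Finset.sum_range_succ (n := d + 1)]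
    dsimp only
    rw [if_pos rfl]
    congr 1
    apply Finset.sum_congr rfl
    intro n hn
    rw [Finset.mem_range] at hn
    rw [if_neg (by omega)]

lemma exists_poly_of_cos (d : ℕ) (a : ℕ → ℝ) :
    ∃ f : ℝ[X], f.natDegree ≤ d ∧
      ∀ ψ : ℝ, f.eval (cos ψ) = ∑ n ∈ Finset.range (d + 1), a n * cos (n * ψ) := by
  refine ⟨∑ n ∈ Finset.range (d + 1), Polynomial.C (a n) * Polynomial.Chebyshev.T ℝ (n : ℤ), ?_, ?_⟩
  · apply Polynomial.natDegree_sum_le_of_forall_le
    intro n hn
    rw [Finset.mem_range] at hn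
    refine (Polynomial.natDegree_C_mul_le _ _).trans ?_
    rw [Polynomial.Chebyshev.natDegree_T]
    simp
    omega
  · intro ψ
    rw [Polynomial.eval_finsetSum]
    apply Finset.sum_congr rfl
    intro n _
    rw [Polynomial.eval_mul, Polynomial.eval_C, Polynomial.Chebyshev.T_real_cos]
    simp

/-- the average of `cos (n ·)` over an `m`-th preimage orbit -/
lemma sum_cos (m : ℕ) (hm : 0 < m) (n : ℕ) (φ : ℝ) (h : ¬ m ∣ n) :
    ∑ k ∈ Finset.range m, cos (n * ((φ + 2 * π * k) / m)) = 0 := by
  have hm' : (m : ℝ) ≠ 0 := by positivity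
  have hs : sin (π * n / m) ≠ 0 := by
    intro h0
    rw [sin_eq_zero_iff] at h0
    obtain ⟨k, hk⟩ := h0
    have h1 : (k : ℝ) * m = n := by
      have : (k : ℝ) * π * m = π * n := by rw [hk]; field_simp
      have hπ := Real.pi_ne_zero
      have : π * ((k : ℝ) * m - n) = 0 := by linarith
      rcases mul_eq_zero.1 this with h2 | h2
      · exact absurd h2 hπ
      · linarith
    have h2 : (k : ℤ) * m = n := by exact_mod_cast h1
    apply h
    have : (m : ℤ) ∣ n := ⟨k, by rw [mul_comm]; exact h2.symm⟩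
    exact_mod_cast this
  have htel : ∀ K : ℕ, 2 * sin (π * n / m) * ∑ k ∈ Finset.range K, cos (n * ((φ + 2 * π * k) / m))
      = sin (n * φ / m + 2 * π * n * K / m - π * n / m) - sin (n * φ / m - π * n / m) := by
    intro K
    induction K with
    | zero => simp
    | succ K ih =>
      rw [Finset.sum_range_succ, mul_add, ih]
      have e1 : (n : ℝ) * ((φ + 2 * π * K) / m) = n * φ / m + 2 * π * n * K / m := by ring
      have e2 : (n : ℝ) * φ / m + 2 * π * n * (K + 1 : ℕ) / m - π * n / m
          = (n * φ / m + 2 * π * n * K / m) + π * n / m := by push_cast; ring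
      rw [e1, e2, sin_add, sin_sub]
      ring
  have := htel m
  have e3 : (n : ℝ) * φ / m + 2 * π * n * m / m - π * n / m = (n * φ / m - π * n / m) + n * (2 * π) := by
    field_simp
    ring
  rw [e3, sin_add_nat_mul_two_pi, sub_self] at this
  rcases mul_eq_zero.1 this with h1 | h1
  · exfalso; apply hs; linarith
  · exact h1

/-- averaging over the `m`-th preimage orbit maps degree `p m` to degree `p`. -/
lemma exists_avg (p m : ℕ) (hm : 0 < m) (f : ℝ[X]) (hf : f.natDegree ≤ p * m) :
    ∃ g : ℝ[X], g.natDegree ≤ p ∧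
      ∀ φ : ℝ, ∑ k ∈ Finset.range m, f.eval (cos ((φ + 2 * π * k) / m)) = m * g.eval (cos φ) := by
  obtain ⟨a, ha⟩ := exists_cos_coeff _ f hf
  obtain ⟨g, hg, hg2⟩ := exists_poly_of_cos p (fun n => a (n * m))
  have hm' : (m : ℝ) ≠ 0 := by positivity
  refine ⟨g, hg, fun φ => ?_⟩
  rw [hg2]
  simp_rw [ha]
  rw [Finset.sum_comm]
  have h1 : ∀ n ∈ Finset.range (p * m + 1),
      ∑ k ∈ Finset.range m, a n * cos (n * ((φ + 2 * π * k) / m))
      = if m ∣ n then m * (a n * cos ((n / m : ℕ) * φ)) else 0 := by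
    intro n _
    rw [← Finset.mul_sum]
    split_ifs with h
    · obtain ⟨r, rfl⟩ := h
      have : ∀ k ∈ Finset.range m, cos ((m * r : ℕ) * ((φ + 2 * π * k) / m)) = cos (r * φ) := by
        intro k _
        have : ((m * r : ℕ) : ℝ) * ((φ + 2 * π * k) / m) = r * φ + (r * k : ℕ) * (2 * π) := by
          push_cast; field_simp
        rw [this, cos_add_nat_mul_two_pi]
      rw [Finset.sum_congr rfl this, Nat.mul_div_cancel_left _ hm]
      simp
      ring
    · rw [sum_cos m hm n φ h, mul_zero]
  rw [Finset.sum_congr rfl h1, ← Finset.sum_filter, Finset.mul_sum]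
  symm
  apply Finset.sum_bij (fun n _ => n * m)
  · intro n hn
    simp only [Finset.mem_range, Finset.mem_filter] at hn ⊢
    refine ⟨?_, dvd_mul_left _ _⟩
    have : n * m ≤ p * m := Nat.mul_le_mul_right _ (by omega)
    omega
  · intro n1 _ n2 _ h
    exact Nat.eq_of_mul_eq_mul_right hm h
  · intro n hn
    simp only [Finset.mem_range, Finset.mem_filter] at hn
    obtain ⟨hn1, r, rfl⟩ := hn
    refine ⟨r, ?_, by ring⟩
    rw [Finset.mem_range]
    have : m * r ≤ m * p := by rw [mul_comm m p]; omega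
    have := Nat.le_of_mul_le_mul_left this hm
    omega
  · intro n _
    rw [Nat.mul_div_cancel _ hm]

lemma sum_range_two_mul (A : ℕ → ℝ) (m : ℕ) :
    ∑ j ∈ Finset.range (2 * m), A j = ∑ k ∈ Finset.range m, A (2 * k) + ∑ k ∈ Finset.range m, A (2 * k + 1) := by
  induction m with
  | zero => simp
  | succ m ih =>
    rw [show 2 * (m + 1) = 2 * m + 1 + 1 by ring, Finset.sum_range_succ, Finset.sum_range_succ, ih,
      Finset.sum_range_succ, Finset.sum_range_succ]
    ring

/-- change of variables for the pulled back measure -/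
lemma integral_pull (m : ℕ) (hm : 0 < m) (F : ℝ → ℝ) (hF : Continuous F) (hev : ∀ x, F (-x) = F x)
    (hper : ∀ x, F (x + 2 * π) = F x) :
    ∑ k ∈ Finset.range m, ∫ φ in (0:ℝ)..π, F ((φ + 2 * π * k) / m) * sin φ
      = m * ∫ ψ in (0:ℝ)..π, F ψ * |sin (m * ψ)| := by
  have hm' : (m : ℝ) ≠ 0 := by positivity
  set A : ℕ → ℝ := fun j => ∫ v in (0:ℝ)..π, F ((v + j * π) / m) * sin v with hA
  have hrefl : ∀ j, j < 2 * m → A (2 * m - 1 - j) = A j := by
    intro j hj
    simp only [hA]
    have h1 := intervalIntegral.integral_comp_sub_left (a := 0) (b := π)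
      (fun v => F ((v + j * π) / m) * sin v) π
    rw [sub_zero, sub_self] at h1
    rw [← h1]
    apply intervalIntegral.integral_congr
    intro v _
    simp only [sin_pi_sub]
    congr 1
    have h2 : (((2 * m - 1 - j : ℕ) : ℝ)) = 2 * m - 1 - j := by
      rw [Nat.sub_sub, Nat.cast_sub (by omega)]
      push_cast; ring
    rw [h2]
    have h3 : (v + (2 * (m : ℝ) - 1 - j) * π) / m = -((π - v + j * π) / m) + 2 * π := by
      field_simp
      ring
    rw [h3, hper, hev]
  have h1 : (m : ℝ) * ∫ ψ in (0:ℝ)..π, F ψ * |sin (m * ψ)| = ∑ j ∈ Finset.range m, A j := by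
    have e1 := intervalIntegral.integral_comp_mul_left (a := 0) (b := π)
      (fun u => F (u / m) * |sin u|) hm'
    simp only [mul_div_cancel_left₀ _ hm', mul_zero, smul_eq_mul] at e1
    rw [e1, ← mul_assoc, mul_inv_cancel₀ hm', one_mul]
    have hint : ∀ k < m, IntervalIntegrable (fun u => F (u / m) * |sin u|) volume
        ((fun k : ℕ => (k : ℝ) * π) k) ((fun k : ℕ => (k : ℝ) * π) (k + 1)) := by
      intro k _
      apply Continuous.intervalIntegrable
      exact (hF.comp (continuous_id.div_const _)).mul (continuous_sin.abs)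
    have e2 := intervalIntegral.sum_integral_adjacent_intervals hint
    simp only [Nat.cast_zero, zero_mul] at e2
    rw [← e2]
    apply Finset.sum_congr rfl
    intro j _
    simp only [hA]
    have e3 := intervalIntegral.integral_comp_add_right (a := 0) (b := π)
      (fun u => F (u / m) * |sin u|) (j * π)
    simp only [zero_add] at e3
    have e4 : π + (j : ℝ) * π = ((j + 1 : ℕ) : ℝ) * π := by push_cast; ring
    rw [e4] at e3
    rw [← e3]
    apply intervalIntegral.integral_congr
    intro v hv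
    rw [uIcc_of_le pi_pos.le] at hv
    simp only
    congr 1
    rw [show sin (v + j * π) = (-1) ^ j * sin v by
      rw [Real.sin_add_nat_mul_pi]]
    rw [abs_mul, abs_pow, abs_neg, abs_one, one_pow, one_mul,
      abs_of_nonneg (sin_nonneg_of_mem_Icc hv)]
  rw [h1]
  have h2 : ∀ k ∈ Finset.range m, ∫ φ in (0:ℝ)..π, F ((φ + 2 * π * k) / m) * sin φ = A (2 * k) := by
    intro k _
    simp only [hA]
    apply intervalIntegral.integral_congr
    intro v _
    simp only
    congr 3
    push_cast
    ring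
  rw [Finset.sum_congr rfl h2]
  have h3 : ∑ k ∈ Finset.range m, A (2 * k + 1) = ∑ k ∈ Finset.range m, A (2 * k) := by
    rw [← Finset.sum_range_reflect]
    apply Finset.sum_congr rfl
    intro k hk
    rw [Finset.mem_range] at hk
    have := hrefl (2 * k) (by omega)
    rw [← this]
    congr 1
    omega
  have h4 : ∑ j ∈ Finset.range (2 * m), A j = 2 * ∑ j ∈ Finset.range m, A j := by
    rw [two_mul m, Finset.sum_range_add, two_mul]
    congr 1
    rw [← Finset.sum_range_reflect]
    apply Finset.sum_congr rfl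
    intro k hk
    rw [Finset.mem_range] at hk
    have := hrefl k (by omega)
    rw [← this]
    congr 1
    omega
  have h5 := sum_range_two_mul A m
  rw [h4, h3] at h5
  linarith

end Pool.Agent.H89.Cheb
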