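import Pool.Agent.H89.Cheb.Final
import Pool.Agent.H93.Ch.VM

set_option autoImplicit false
open MeasureTheory intervalIntegral Real Set Polynomial Filter

namespace Pool.Agent.H89.Cheb

open Pool.Agent.H93.Ch

/-- folding of an integral against `|sin|`. -/
lemma fold_sin (G : ℝ → ℝ) (hG : Continuous G) :
    ∫ t in (-π)..π, G t * |sin t| = ∫ t in (0:ℝ)..π, (G t + G (-t)) * sin t := by
  have hi : ∀ a b, IntervalIntegrable (fun t => G t * |sin t|) volume a b := fun a b =>
    (hG.mul continuous_sin.abs).intervalIntegrable a b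
  rw [← intervalIntegral.integral_add_adjacent_intervals (hi (-π) 0) (hi 0 π)]
  have h1 : ∫ t in (-π)..0, G t * |sin t| = ∫ t in (0:ℝ)..π, G (-t) * |sin t| := by
    have := intervalIntegral.integral_comp_neg (a := 0) (b := π) (fun t => G t * |sin t|)
    simp only [sin_neg, abs_neg, neg_zero] at this
    exact this.symm
  rw [h1, ← intervalIntegral.integral_add]
  · apply intervalIntegral.integral_congr
    intro t ht
    rw [uIcc_of_le pi_pos.le] at ht
    simp only
    rw [abs_of_nonneg (sin_nonneg_of_mem_Icc ht)]
    ring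
  · exact ((hG.comp continuous_neg).mul continuous_sin.abs).intervalIntegrable _ _
  · exact hi 0 π

lemma sg_eq (F : ℝ → ℝ) (hF : Continuous F) (P : ℝ[X])
    (hP : ∀ θ, (F θ + F (-θ)) / 2 = P.eval (cos θ)) :
    sg F = 1 / 2 * ∫ t in (0:ℝ)..π, P.eval (cos t) * sin t := by
  rw [sg, fold_sin F hF, ← intervalIntegral.integral_const_mul, ← intervalIntegral.integral_const_mul]
  apply intervalIntegral.integral_congr
  intro t _
  simp only
  rw [← hP t]
  ring

lemma sg_poly (P : ℝ[X]) :
    sg (fun θ => P.eval (cos θ)) = 1 / 2 * ∫ t in (0:ℝ)..π, P.eval (cos t) * sin t := by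
  apply sg_eq _ (continuous_eval_cos P) P
  intro θ
  simp only [cos_neg]
  ring

/-- `NearExact` implies `NE`. -/
lemma NE_of_near {N : ℕ} (q m : ℕ) (x : Fin N → ℝ) (ε δ : ℝ) (hN : 0 < N)
    (hm : 1 ≤ m) (hmq : m ≤ q) (hε : 0 ≤ ε) (hεδ : ε / 2 ≤ δ) (h : NearExact ε q x) :
    NE q m δ x := by
  intro F hF
  have hq : 0 < q := by omega
  have hN' : (0:ℝ) < N := by exact_mod_cast hN
  have hm' : (0:ℝ) < m := by exact_mod_cast hm
  have hq' : (0:ℝ) < q := by exact_mod_cast hq
  have hFc : Continuous F := hF.contDiff.continuous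
  have hdF := hF.deriv
  have hdFc : Continuous (deriv F) := hdF.contDiff.continuous
  set Fe : ℝ → ℝ := fun θ => (1 / 2) * (F θ + F (-θ)) with hFe
  have hFeTP : TP q Fe := (hF.add hF.comp_neg).const_mul (1 / 2)
  obtain ⟨P, hPd, hP⟩ := hFeTP.even_eq_poly (fun θ => by simp only [hFe, neg_neg]; ring)
  have hPe : ∀ θ, (F θ + F (-θ)) / 2 = P.eval (cos θ) := by
    intro θ
    rw [← hP θ]
    simp only [hFe]
    ring
  have hsg := sg_eq F hFc P hPe
  have hmu : mu x F = (∑ i, P.eval (cos (x i))) / N := by
    rw [mu]
    have : ∑ i, (F (x i) + F (-(x i))) = 2 * ∑ i, P.eval (cos (x i)) := by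
      rw [Finset.mul_sum]
      apply Finset.sum_congr rfl
      intro i _
      rw [← hPe]; ring
    rw [this]
    field_simp
  have hne := h P hPd
  rw [Fintype.card_fin] at hne
  have h1 : |mu x F - sg F| = |∑ i, P.eval (cos (x i)) - (N / 2 : ℝ) * ∫ t in (0:ℝ)..π, P.eval (cos t) * sin t| / N := by
    rw [hmu, hsg, ← abs_of_pos hN', ← abs_div, abs_of_pos hN']
    congr 1
    field_simp
  have hder : ∀ t, P.derivative.eval (cos t) * sin t = -(1 / 2 * (deriv F t - deriv F (-t))) := by
    intro t
    have e1 : HasDerivAt Fe (-(P.derivative.eval (cos t)) * sin t) t := by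
      have : Fe = fun t => P.eval (cos t) := by funext θ; rw [hP θ]
      rw [this]
      exact hasDerivAt_eval_cos P t
    have hFd : Differentiable ℝ F := hF.contDiff.differentiable (by simp)
    have e2 : HasDerivAt Fe ((1 / 2) * (deriv F t + -deriv F (-t))) t := by
      have h3 : HasDerivAt (fun θ => F (-θ)) (-deriv F (-t)) t := by
        have := (hFd (0 - t)).hasDerivAt.comp_const_sub 0 t
        simpa only [zero_sub] using this
      exact ((hFd t).hasDerivAt.add h3).const_mul (1 / 2)
    have := e1.unique e2
    linarith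
  have h2 : ∫ t in (0:ℝ)..π, |P.derivative.eval (cos t)| * sin t ^ 2
      ≤ 1 / 2 * ∫ t in (-π)..π, |deriv F t| * W m t := by
    calc ∫ t in (0:ℝ)..π, |P.derivative.eval (cos t)| * sin t ^ 2
        ≤ ∫ t in (0:ℝ)..π, 1 / 2 * ((|deriv F t| + |deriv F (-t)|) * sin t) := by
          apply intervalIntegral.integral_mono_on pi_pos.le
          · apply Continuous.intervalIntegrable
            exact ((continuous_eval_cos _).abs).mul (continuous_sin.pow 2)
          · apply Continuous.intervalIntegrable
            exact continuous_const.mul ((hdFc.abs.add (hdFc.comp continuous_neg).abs).mul continuous_sin)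
          · intro t ht
            have hs := sin_nonneg_of_mem_Icc ht
            have e : |P.derivative.eval (cos t)| * sin t ^ 2
                = |P.derivative.eval (cos t) * sin t| * sin t := by
              rw [abs_mul, abs_of_nonneg hs]; ring
            rw [e, hder, abs_neg, abs_mul, abs_of_pos (by norm_num : (0:ℝ) < 1 / 2)]
            have := abs_sub (deriv F t) (deriv F (-t))
            nlinarith
      _ = 1 / 2 * ∫ t in (-π)..π, |deriv F t| * |sin t| := by
          rw [fold_sin _ hdFc.abs, intervalIntegral.integral_const_mul]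
      _ ≤ 1 / 2 * ∫ t in (-π)..π, |deriv F t| * W m t := by
          gcongr
          apply intervalIntegral.integral_mono_on (by linarith [pi_pos])
          · exact (hdFc.abs.mul continuous_sin.abs).intervalIntegrable _ _
          · exact (hdFc.abs.mul (W_continuous m)).intervalIntegrable _ _
          · intro t _
            gcongr
            simp only [W]
            have : (0:ℝ) ≤ 1 / m := by positivity
            linarith
  rw [h1, div_le_iff₀ hN']
  refine hne.trans ?_
  have hI0 : 0 ≤ ∫ t in (-π)..π, |deriv F t| * W m t := by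
    apply intervalIntegral.integral_nonneg (by linarith [pi_pos])
    intro t _
    exact mul_nonneg (abs_nonneg _) (W_pos hm t).le
  have hmq' : (m:ℝ) ≤ q := by exact_mod_cast hmq
  calc ε * (N / q) * ∫ t in (0:ℝ)..π, |P.derivative.eval (cos t)| * sin t ^ 2
      ≤ ε * (N / q) * (1 / 2 * ∫ t in (-π)..π, |deriv F t| * W m t) := by gcongr
    _ ≤ ε * (N / m) * (1 / 2 * ∫ t in (-π)..π, |deriv F t| * W m t) := by gcongr
    _ = (ε / 2) / m * (∫ t in (-π)..π, |deriv F t| * W m t) * N := by field_simp
    _ ≤ δ / m * (∫ t in (-π)..π, |deriv F t| * W m t) * N := by gcongr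

/-- stability of `NE` under small perturbations -/
lemma NE_perturb {N : ℕ} (p m : ℕ) (x x' : Fin N → ℝ) (δ τ : ℝ) (hN : 0 < N) (hm : 1 ≤ m)
    (hx : ∀ i, |x' i - x i| ≤ τ) (hτ : τ * (2 * p + 1) * m ^ 2 ≤ δ) (h : NE p m (δ / 2) x) :
    NE p m δ x' := by
  intro F hF
  have hN' : (0:ℝ) < N := by exact_mod_cast hN
  have hm' : (0:ℝ) < m := by exact_mod_cast hm
  have hτ0 : 0 ≤ τ := (abs_nonneg _).trans (hx ⟨0, hN⟩)
  have hdF := hF.deriv
  have hdFc : Continuous (deriv F) := hdF.contDiff.continuous
  have hFd : Differentiable ℝ F := hF.contDiff.differentiable (by simp)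
  set I := ∫ t in (-π)..π, |deriv F t| * W m t with hI
  have hI0 : 0 ≤ I := by
    apply intervalIntegral.integral_nonneg (by linarith [pi_pos])
    intro t _
    exact mul_nonneg (abs_nonneg _) (W_pos hm t).le
  obtain ⟨D, hDc, hD, hrep⟩ := dirichlet p
  have hsup : ∀ t, ‖deriv F t‖ ≤ (2 * p + 1) / (2 * π) * (m * I) := by
    intro t
    rw [hrep _ hdF t, Real.norm_eq_abs, abs_mul, abs_of_pos (by positivity : 0 < 1 / (2 * π))]
    have h1 : |∫ s in (-π)..π, deriv F s * D (t - s)| ≤ ∫ s in (-π)..π, (2 * p + 1) * (m * (|deriv F s| * W m s)) := by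
      refine (intervalIntegral.abs_integral_le_integral_abs (by linarith [pi_pos])).trans ?_
      apply intervalIntegral.integral_mono_on (by linarith [pi_pos])
      · apply Continuous.intervalIntegrable
        exact (hdFc.mul (hDc.comp (continuous_const.sub continuous_id))).abs
      · apply Continuous.intervalIntegrable
        exact continuous_const.mul (continuous_const.mul (hdFc.abs.mul (W_continuous m)))
      · intro s _
        rw [abs_mul]
        have hW : 1 ≤ m * W m s := by
          simp only [W]
          rw [mul_add, mul_one_div_cancel hm'.ne']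
          have : 0 ≤ (m:ℝ) * |sin s| := by positivity
          linarith
        calc |deriv F s| * |D (t - s)| ≤ |deriv F s| * (2 * p + 1) := by
              gcongr; exact hD _
          _ = (2 * p + 1) * (|deriv F s| * 1) := by ring
          _ ≤ (2 * p + 1) * (|deriv F s| * (m * W m s)) := by gcongr
          _ = _ := by ring
    rw [intervalIntegral.integral_const_mul, intervalIntegral.integral_const_mul] at h1
    calc 1 / (2 * π) * |∫ s in (-π)..π, deriv F s * D (t - s)|
        ≤ 1 / (2 * π) * ((2 * p + 1) * (m * I)) := by gcongr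
      _ = _ := by ring
  set S := (2 * p + 1) / (2 * π) * (m * I) with hS
  have hS0 : 0 ≤ S := by positivity
  have hlip : ∀ a b, |F a - F b| ≤ S * |a - b| := by
    intro a b
    have := Convex.norm_image_sub_le_of_norm_deriv_le (s := Set.univ) (f := F) (C := S)
      (fun t _ => hFd t) (fun t _ => hsup t) convex_univ (Set.mem_univ b) (Set.mem_univ a)
    simpa [Real.norm_eq_abs] using this
  have hmu : |mu x' F - mu x F| ≤ S * τ := by
    have e : mu x' F - mu x F = (∑ i, ((F (x' i) - F (x i)) + (F (-(x' i)) - F (-(x i))))) / (2 * N) := by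
      rw [mu, mu, ← sub_div, ← Finset.sum_sub_distrib]
      congr 1
      apply Finset.sum_congr rfl
      intro i _
      ring
    rw [e, abs_div, abs_of_pos (by positivity : (0:ℝ) < 2 * N), div_le_iff₀ (by positivity)]
    refine (Finset.abs_sum_le_sum_abs _ _).trans ?_
    calc ∑ i, |(F (x' i) - F (x i)) + (F (-(x' i)) - F (-(x i)))|
        ≤ ∑ i : Fin N, 2 * (S * τ) := by
          apply Finset.sum_le_sum
          intro i _
          refine (abs_add_le _ _).trans ?_
          have h1 := hlip (x' i) (x i)
          have h2 := hlip (-(x' i)) (-(x i))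
          have h3 : |-(x' i) - -(x i)| = |x' i - x i| := by
            rw [show -(x' i) - -(x i) = -(x' i - x i) by ring, abs_neg]
          rw [h3] at h2
          have h4 : S * |x' i - x i| ≤ S * τ := by gcongr; exact hx i
          linarith
      _ = S * τ * (2 * N) := by simp; ring
  have h1 := h F hF
  have h2 : S * τ ≤ (δ / 2) / m * I := by
    rw [hS]
    have h3 : τ * (2 * p + 1) * m ≤ δ / m := by
      rw [le_div_iff₀ hm']
      nlinarith
    have h4 : (2 * p + 1) / (2 * π) * (m * I) * τ = (τ * (2 * p + 1) * m) * I / (2 * π) := by ring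
    rw [h4, div_le_iff₀ (by positivity)]
    have h5 : 0 ≤ δ / m := le_trans (by positivity) h3
    calc τ * (2 * p + 1) * m * I ≤ δ / m * I := by gcongr
      _ ≤ δ / m * I * π := by
          have : 1 ≤ π := by linarith [pi_gt_three]
          have h6 : 0 ≤ δ / m * I := by positivity
          nlinarith
      _ = δ / 2 / m * I * (2 * π) := by ring
  calc |mu x' F - sg F| = |(mu x' F - mu x F) + (mu x F - sg F)| := by ring_nf
    _ ≤ |mu x' F - mu x F| + |mu x F - sg F| := abs_add_le _ _
    _ ≤ (δ / 2) / m * I + (δ / 2) / m * I := by linarith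
    _ = δ / m * I := by ring

/-- perturbation to distinct nodes -/
lemma exists_injective {N : ℕ} (x : Fin N → ℝ) (hx : ∀ i, x i ∈ Icc 0 π) (τ : ℝ) (hτ : 0 < τ) :
    ∃ x' : Fin N → ℝ, (∀ i, x' i ∈ Icc 0 π) ∧ Function.Injective x' ∧ ∀ i, |x' i - x i| ≤ τ := by
  set σ := Tuple.sort x with hσ
  have hmono : Monotone (x ∘ σ) := Tuple.monotone_sort x
  set z : Fin N → ℝ := fun i => π * (((σ.symm i : ℕ) : ℝ) + 1) / (N + 1) with hz
  set t : ℝ := min 1 (τ / π) with ht
  have ht0 : 0 < t := lt_min one_pos (by positivity)
  have ht1 : t ≤ 1 := min_le_left _ _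
  have hzmem : ∀ i, z i ∈ Icc 0 π := by
    intro i
    simp only [hz]
    constructor
    · positivity
    · rw [div_le_iff₀ (by positivity)]
      have : (((σ.symm i : ℕ) : ℝ) + 1) ≤ N := by exact_mod_cast (σ.symm i).2
      nlinarith [pi_pos]
  refine ⟨fun i => (1 - t) * x i + t * z i, ?_, ?_, ?_⟩
  · intro i
    have h1 := hx i
    have h2 := hzmem i
    constructor
    · have := h1.1; have := h2.1
      have : 0 ≤ 1 - t := by linarith
      positivity
    · nlinarith [h1.2, h2.2]
  · -- strict monotone after sorting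
    have key : ∀ i j : Fin N, σ.symm i < σ.symm j → (1 - t) * x i + t * z i < (1 - t) * x j + t * z j := by
      intro i j hij
      have h1 : x i ≤ x j := by
        have := hmono hij.le
        simpa using this
      have h2 : z i < z j := by
        simp only [hz]
        have : ((σ.symm i : ℕ) : ℝ) < ((σ.symm j : ℕ) : ℝ) := by exact_mod_cast hij
        gcongr
      have : 0 ≤ 1 - t := by linarith
      nlinarith
    intro i j hij
    simp only at hij
    by_contra hne
    have hne' : σ.symm i ≠ σ.symm j := fun h => hne (σ.symm.injective h)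
    rcases lt_or_gt_of_ne hne' with h | h
    · exact absurd hij (key i j h).ne
    · exact absurd hij (key j i h).ne'
  · intro i
    have e : (1 - t) * x i + t * z i - x i = t * (z i - x i) := by ring
    rw [e, abs_mul, abs_of_pos ht0]
    have h1 : |z i - x i| ≤ π := by
      have h1 := hx i
      have h2 := hzmem i
      rw [abs_le]; constructor <;> linarith [h1.1, h1.2, h2.1, h2.2]
    calc t * |z i - x i| ≤ (τ / π) * π := by
          gcongr
          exact min_le_right _ _
      _ = τ := by field_simp

end Pool.Agent.H89.Cheb
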