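import Pool.Agent.H89.Cheb.Fin1
import Pool.Agent.H93.Ch.Gain
import Pool.Agent.H75.Brouwer.Brouwer

set_option autoImplicit false
open MeasureTheory intervalIntegral Real Set Polynomial Filter

namespace Pool.Agent.H89.Cheb

open Pool.Agent.H93.Ch

/-- polynomial with zero constant term and given coefficients -/
noncomputable def PP {q : ℕ} (a : EuclideanSpace ℝ (Fin q)) : ℝ[X] :=
  ∑ k : Fin q, Polynomial.C (a k) * X ^ ((k : ℕ) + 1)

lemma PP_natDegree {q : ℕ} (a : EuclideanSpace ℝ (Fin q)) : (PP a).natDegree ≤ q := by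
  apply Polynomial.natDegree_sum_le_of_forall_le
  intro k _
  exact (Polynomial.natDegree_C_mul_X_pow_le _ _).trans k.2

lemma PP_coeff {q : ℕ} (a : EuclideanSpace ℝ (Fin q)) (k : Fin q) :
    (PP a).coeff ((k : ℕ) + 1) = a k := by
  rw [PP, Polynomial.finsetSum_coeff]
  simp only [Polynomial.coeff_C_mul_X_pow]
  rw [Finset.sum_eq_single k]
  · simp
  · intro b _ hb
    rw [if_neg]
    intro h
    apply hb
    apply Fin.ext
    omega
  · simp

lemma PP_pos {q : ℕ} (a : EuclideanSpace ℝ (Fin q)) (ha : a ≠ 0) : 0 < (PP a).natDegree := by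
  have : ∃ k, a k ≠ 0 := by
    by_contra h
    push Not at h
    apply ha
    ext k
    simpa using h k
  obtain ⟨k, hk⟩ := this
  rw [← PP_coeff a k] at hk
  have := Polynomial.le_natDegree_of_ne_zero hk
  omega

lemma PP_eval {q : ℕ} (a : EuclideanSpace ℝ (Fin q)) (z : ℝ) :
    (PP a).eval z = ∑ k : Fin q, a k * z ^ ((k : ℕ) + 1) := by
  simp [PP, Polynomial.eval_finsetSum]

lemma PP_deriv {q : ℕ} (a : EuclideanSpace ℝ (Fin q)) (z : ℝ) :
    (PP a).derivative.eval z = ∑ k : Fin q, a k * ((X ^ ((k : ℕ) + 1) : ℝ[X]).derivative.eval z) := by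
  simp only [PP, Polynomial.derivative_sum, Polynomial.eval_finsetSum, Polynomial.derivative_C_mul,
    Polynomial.eval_mul, Polynomial.eval_C]

lemma PP_deriv2 {q : ℕ} (a : EuclideanSpace ℝ (Fin q)) (z : ℝ) :
    (PP a).derivative.derivative.eval z
      = ∑ k : Fin q, a k * ((X ^ ((k : ℕ) + 1) : ℝ[X]).derivative.derivative.eval z) := by
  simp only [PP, Polynomial.derivative_sum, Polynomial.eval_finsetSum, Polynomial.derivative_C_mul,
    Polynomial.eval_mul, Polynomial.eval_C]

lemma continuous_PP_deriv {q : ℕ} :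
    Continuous (fun az : EuclideanSpace ℝ (Fin q) × ℝ => (PP az.1).derivative.eval az.2) := by
  simp_rw [PP_deriv]
  apply continuous_finsetSum
  intro k _
  apply Continuous.mul
  · fun_prop
  · exact (Polynomial.continuous _).comp continuous_snd

lemma hasDerivAt_gg (m : ℕ) (P : ℝ[X]) (θ : ℝ) :
    HasDerivAt (gg m P) (-(cos θ * P.derivative.eval (cos θ)
      + sin θ * (-(P.derivative.derivative.eval (cos θ)) * sin θ)) / m) θ := by
  have h1 := (hasDerivAt_sin θ).mul (hasDerivAt_eval_cos P.derivative θ)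
  exact (h1.neg).div_const (m:ℝ)

lemma continuous_gg2 {q : ℕ} (m : ℕ) :
    Continuous (fun az : EuclideanSpace ℝ (Fin q) × ℝ => gg m (PP az.1) az.2) := by
  simp only [gg]
  apply Continuous.div_const
  apply Continuous.neg
  apply Continuous.mul
  · fun_prop
  · exact continuous_PP_deriv.comp (continuous_fst.prodMk (continuous_cos.comp continuous_snd))

lemma continuous_gg_fst {q : ℕ} (m : ℕ) (y : ℝ) :
    Continuous (fun a : EuclideanSpace ℝ (Fin q) => gg m (PP a) y) :=
  Continuous.comp (g := fun az : EuclideanSpace ℝ (Fin q) × ℝ => gg m (PP az.1) az.2)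
    (f := fun a : EuclideanSpace ℝ (Fin q) => (a, y)) (continuous_gg2 m)
    (Continuous.prodMk continuous_id continuous_const)

lemma continuous_dgg_fst {q : ℕ} (m : ℕ) (y : ℝ) :
    Continuous (fun a : EuclideanSpace ℝ (Fin q) => deriv (gg m (PP a)) y) := by
  have : (fun a : EuclideanSpace ℝ (Fin q) => deriv (gg m (PP a)) y)
      = fun a => (-(cos y * (PP a).derivative.eval (cos y)
      + sin y * (-((PP a).derivative.derivative.eval (cos y)) * sin y)) / m) := by
    funext a
    exact (hasDerivAt_gg m (PP a) y).deriv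
  rw [this]
  simp_rw [PP_deriv, PP_deriv2]
  fun_prop

lemma continuous_vv_fst {q : ℕ} (m n : ℕ) (hm : 1 ≤ m) (hn : 1 ≤ n) (y : ℝ) :
    Continuous (fun a : EuclideanSpace ℝ (Fin q) => vv m (hh m n (PP a)) y) := by
  have hbb : Continuous (bb m n) := (bb_TP hn).contDiff.continuous
  have hkap : Continuous (kap m) := (kap_TP hm).contDiff.continuous
  simp only [vv]
  apply Continuous.sqrt
  apply Continuous.mul continuous_const
  apply intervalIntegral.continuous_parametric_intervalIntegral_of_continuous'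
  apply Continuous.mul
  · apply Continuous.pow
    simp only [hh]
    exact (hbb.comp continuous_snd).mul (continuous_gg2 m)
  · exact hkap.comp (continuous_snd.sub continuous_const)

lemma sg_sum {q : ℕ} (a : EuclideanSpace ℝ (Fin q)) :
    sg (ff (PP a)) = ∑ k : Fin q, a k * sg (fun θ => cos θ ^ ((k : ℕ) + 1)) := by
  simp only [sg]
  simp_rw [← mul_assoc, mul_comm _ (1 / 4 : ℝ), mul_assoc, ← Finset.mul_sum]
  congr 1
  have : ∀ θ, ff (PP a) θ * |sin θ| = ∑ k : Fin q, a k * (cos θ ^ ((k : ℕ) + 1) * |sin θ|) := by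
    intro θ
    rw [ff, PP_eval, Finset.sum_mul]
    apply Finset.sum_congr rfl
    intro k _
    ring
  simp_rw [this]
  rw [intervalIntegral.integral_finsetSum]
  · apply Finset.sum_congr rfl
    intro k _
    rw [intervalIntegral.integral_const_mul]
  · intro k _
    apply Continuous.intervalIntegrable
    fun_prop

open scoped RealInnerProductSpace in
/-- Existence of an exact formula near an injective, nearly exact configuration. -/
lemma exists_exact (Λ c₀ : ℝ) (hΛ : 1 ≤ Λ) (hc₀ : 0 < c₀) :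
    ∃ (δ₀ : ℝ) (m₀ : ℕ), 0 < δ₀ ∧
    ∀ (N p m q : ℕ) (x : Fin N → ℝ), 0 < N → 1 ≤ m → m₀ ≤ m → (p : ℝ) ≤ Λ * m → q + 7 * m ≤ p →
    c₀ * m ^ 2 ≤ N → NE p m δ₀ x → (∀ i, x i ∈ Set.Icc 0 π) → Function.Injective x →
    ∃ y : Fin N → ℝ, Exact q y := by
  obtain ⟨CV, δ₀, A, n, m₀, hCV, hδ₀, hA, hn, H⟩ := positivity Λ c₀ hΛ hc₀
  refine ⟨δ₀, max m₀ n, hδ₀, ?_⟩
  intro N p m q x hN hm hm0 hp hqp hcN hNE hx hinj
  obtain ⟨hbb, η, hη, hpos⟩ := H N p m q x hN hm ((le_max_left _ _).trans hm0) hp hqp hcN hNE hx hinj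
  have hnm : n ≤ m := (le_max_right _ _).trans hm0
  have hm' : (0:ℝ) < m := by exact_mod_cast hm
  -- continuity of the displacement away from zero
  have hcont0 : ∀ i, ∀ a : EuclideanSpace ℝ (Fin q), a ≠ 0 →
      ContinuousAt (fun a : EuclideanSpace ℝ (Fin q) => mv CV η A m n (PP a) (x i)) a := by
    intro i a ha
    by_cases hfar : (A : ℝ) / m ≤ |sin (x i)|
    · simp only [mv, if_pos hfar]
      have hb := hbb i hfar
      have hvpos : 0 < vv m (hh m n (PP a)) (x i) :=
        vv_pos hm (hh_TP hn (PP_natDegree a)) (hh_ne_zero hm hn hnm (PP_pos a ha)) _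
      have hVX : Continuous (fun a : EuclideanSpace ℝ (Fin q) => VX CV m n (PP a) (x i)) := by
        simp only [VX]
        exact (continuous_const.mul (continuous_vv_fst m n hm hn (x i))).div_const _
      have hVpos : VX CV m n (PP a) (x i) ≠ 0 := by
        simp only [VX]; positivity
      have h1 : ContinuousAt (fun a : EuclideanSpace ℝ (Fin q) => gg m (PP a) (x i) / VX CV m n (PP a) (x i)) a :=
        (continuous_gg_fst m (x i)).continuousAt.div hVX.continuousAt hVpos
      have h2 : ContinuousAt (fun a : EuclideanSpace ℝ (Fin q) =>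
          max (deriv (gg m (PP a)) (x i) / (m * VX CV m n (PP a) (x i))) 0) a := by
        refine Filter.Tendsto.max ?_ tendsto_const_nhds
        refine (continuous_dgg_fst m (x i)).continuousAt.div
          (continuousAt_const.mul hVX.continuousAt) (mul_ne_zero hm'.ne' hVpos)
      apply ContinuousAt.div_const
      apply h1.add
      apply h2.mul
      exact Filter.Tendsto.max tendsto_const_nhds
        (Filter.Tendsto.min tendsto_const_nhds (h1.div_const η))
    · simp only [mv, if_neg hfar]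
      exact continuousAt_const
  -- bound on the unit sphere
  have hbound : ∀ i, ∃ B : ℝ, 0 ≤ B ∧ ∀ a : EuclideanSpace ℝ (Fin q), ‖a‖ = 1 →
      |mv CV η A m n (PP a) (x i)| ≤ B := by
    intro i
    obtain ⟨B, hB⟩ := (isCompact_sphere (0 : EuclideanSpace ℝ (Fin q)) 1).exists_bound_of_continuousOn
      (f := fun a : EuclideanSpace ℝ (Fin q) => mv CV η A m n (PP a) (x i)) (by
        intro a ha
        apply ContinuousAt.continuousWithinAt
        apply hcont0 i a
        intro h
        rw [h] at ha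
        simp at ha)
    refine ⟨max B 0, le_max_right _ _, fun a ha => ?_⟩
    refine le_trans ?_ (le_max_left _ _)
    have := hB a (by simpa using ha)
    simpa [Real.norm_eq_abs] using this
  choose B hB0 hB using hbound
  set Y : Fin N → EuclideanSpace ℝ (Fin q) → ℝ := fun i a =>
    x i + ‖a‖ * (mv CV η A m n (PP (‖a‖⁻¹ • a)) (x i) / m) with hY
  have hYc : ∀ i, Continuous (Y i) := by
    intro i
    rw [continuous_iff_continuousAt]
    intro a
    by_cases ha : a = 0
    · subst ha
      simp only [hY]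
      apply ContinuousAt.add continuousAt_const
      have hb : ∀ a : EuclideanSpace ℝ (Fin q),
          ‖‖a‖ * (mv CV η A m n (PP (‖a‖⁻¹ • a)) (x i) / m)‖ ≤ ‖a‖ * (B i / m) := by
        intro a
        rw [norm_mul, norm_norm, Real.norm_eq_abs, abs_div, abs_of_pos hm']
        by_cases ha : a = 0
        · subst ha; simp
        · gcongr
          apply hB i
          rw [norm_smul, norm_inv, norm_norm, inv_mul_cancel₀ (norm_ne_zero_iff.2 ha)]
      rw [ContinuousAt]
      simp only [norm_zero, zero_mul]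
      apply squeeze_zero_norm hb
      have : Tendsto (fun a : EuclideanSpace ℝ (Fin q) => ‖a‖ * (B i / m)) (nhds 0) (nhds (‖(0:EuclideanSpace ℝ (Fin q))‖ * (B i / m))) :=
        (continuous_norm.mul continuous_const).tendsto 0
      simpa using this
    · simp only [hY]
      apply ContinuousAt.add continuousAt_const
      have hu : ContinuousAt (fun a : EuclideanSpace ℝ (Fin q) => ‖a‖⁻¹ • a) a :=
        (continuous_norm.continuousAt.inv₀ (norm_ne_zero_iff.2 ha)).smul continuousAt_id
      have hu0 : ‖a‖⁻¹ • a ≠ 0 := smul_ne_zero (inv_ne_zero (norm_ne_zero_iff.2 ha)) ha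
      have hc : ContinuousAt (fun a : EuclideanSpace ℝ (Fin q) => mv CV η A m n (PP (‖a‖⁻¹ • a)) (x i)) a :=
        ContinuousAt.comp (f := fun a : EuclideanSpace ℝ (Fin q) => ‖a‖⁻¹ • a)
          (g := fun a : EuclideanSpace ℝ (Fin q) => mv CV η A m n (PP a) (x i)) (hcont0 i _ hu0) hu
      exact continuous_norm.continuousAt.mul (hc.div_const _)
  set Ψ : EuclideanSpace ℝ (Fin q) → EuclideanSpace ℝ (Fin q) := fun a =>
    WithLp.toLp 2 (fun k : Fin q => ∑ i, cos (Y i a) ^ ((k : ℕ) + 1)
      - N * sg (fun θ => cos θ ^ ((k : ℕ) + 1))) with hΨ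
  have hΨc : Continuous Ψ := by
    apply (PiLp.continuous_toLp 2 _).comp
    apply continuous_pi
    intro k
    apply Continuous.sub _ continuous_const
    apply continuous_finsetSum
    intro i _
    exact (continuous_cos.comp (hYc i)).pow _
  obtain ⟨a, _, ha⟩ := Pool.Agent.H75.Brouwer.exists_zero_unit Ψ hΨc.continuousOn (by
    intro a ha
    rw [mem_sphere_zero_iff_norm] at ha
    have ha0 : a ≠ 0 := by
      intro h; rw [h, norm_zero] at ha; norm_num at ha
    have h1 := hpos (PP a) (PP_natDegree a) (PP_pos a ha0)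
    have h2 : ⟪Ψ a, a⟫ = ∑ i, ff (PP a) (Y i a) - N * sg (ff (PP a)) := by
      rw [PiLp.inner_apply]
      simp only [hΨ, RCLike.inner_apply, conj_trivial]
      simp_rw [mul_sub]
      rw [Finset.sum_sub_distrib, sg_sum, Finset.mul_sum]
      congr 1
      · simp_rw [Finset.mul_sum]
        rw [Finset.sum_comm]
        apply Finset.sum_congr rfl
        intro i _
        rw [ff, PP_eval]
      · apply Finset.sum_congr rfl
        intro k _
        ring
    rw [h2]
    have h3 : ∀ i, Y i a = x i + mv CV η A m n (PP a) (x i) / m := by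
      intro i
      simp only [hY]
      rw [ha, one_mul, inv_one, one_smul]
    simp_rw [h3]
    linarith)
  refine ⟨fun i => Y i a, ?_⟩
  have hzero : ∀ k : Fin q, ∑ i, cos (Y i a) ^ ((k : ℕ) + 1) = N * sg (fun θ => cos θ ^ ((k : ℕ) + 1)) := by
    intro k
    have := congrArg (fun v : EuclideanSpace ℝ (Fin q) => v k) ha
    simp only [hΨ, PiLp.zero_apply] at this
    linarith
  have hsg1 : sg (fun _ => (1:ℝ)) = 1 := by
    have := sg_poly 1
    simp only [Polynomial.eval_one, one_mul, integral_sin, cos_zero, cos_pi] at this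
    rw [this]; norm_num
  intro g hg
  rw [Fintype.card_fin]
  set b : EuclideanSpace ℝ (Fin q) := WithLp.toLp 2 (fun k : Fin q => g.coeff ((k : ℕ) + 1)) with hb
  have hgeq : g = Polynomial.C (g.coeff 0) + PP b := by
    ext j
    rw [Polynomial.coeff_add, Polynomial.coeff_C]
    by_cases hj : j = 0
    · subst hj
      rw [if_pos rfl, PP, Polynomial.finsetSum_coeff]
      simp
    · rw [if_neg hj, zero_add]
      by_cases hjq : j ≤ q
      · have h1 := PP_coeff b ⟨j - 1, by omega⟩
        simp only at h1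
        rw [show j - 1 + 1 = j by omega] at h1
        rw [h1, hb]
        simp only
        congr 1
        omega
      · rw [Polynomial.coeff_eq_zero_of_natDegree_lt (by omega),
          Polynomial.coeff_eq_zero_of_natDegree_lt (lt_of_le_of_lt (PP_natDegree b) (by omega))]
  have hsum : ∑ i, g.eval (cos (Y i a)) = N * sg (fun θ => g.eval (cos θ)) := by
    have e1 : ∀ z, g.eval z = g.coeff 0 + ∑ k : Fin q, b k * z ^ ((k : ℕ) + 1) := by
      intro z
      conv_lhs => rw [hgeq]
      rw [Polynomial.eval_add, Polynomial.eval_C, PP_eval]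
    have e2 : sg (fun θ => g.eval (cos θ)) = g.coeff 0 + sg (ff (PP b)) := by
      have h3 : (fun θ => g.eval (cos θ)) = fun θ => g.coeff 0 * 1 + ff (PP b) θ := by
        funext θ
        rw [ff, PP_eval, e1]; ring
      have h4 : Continuous (ff (PP b)) := continuous_eval_cos _
      rw [h3]
      simp only [sg] at hsg1 ⊢
      have h5 : ∀ θ, (g.coeff 0 * 1 + ff (PP b) θ) * |sin θ| = g.coeff 0 * (1 * |sin θ|) + ff (PP b) θ * |sin θ| := by
        intro θ; ring
      simp_rw [h5]
      rw [intervalIntegral.integral_add, intervalIntegral.integral_const_mul, mul_add]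
      · have : 1 / 4 * (g.coeff 0 * ∫ θ in (-π)..π, 1 * |sin θ|) = g.coeff 0 * (1 / 4 * ∫ θ in (-π)..π, 1 * |sin θ|) := by ring
        rw [this, hsg1, mul_one]
      · apply Continuous.intervalIntegrable; fun_prop
      · exact (h4.mul continuous_sin.abs).intervalIntegrable _ _
    rw [e2, sg_sum]
    simp_rw [e1]
    rw [Finset.sum_add_distrib, Finset.sum_const, Finset.card_univ, Fintype.card_fin, nsmul_eq_mul,
      mul_add, Finset.sum_comm]
    congr 1
    rw [Finset.mul_sum]
    apply Finset.sum_congr rfl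
    intro k _
    rw [← Finset.mul_sum, hzero]
    ring
  rw [hsum, sg_poly]
  ring

/-- **Core theorem.** -/
theorem core : Core := by
  intro θ γ hθ0 hθ hγ
  have h1θ : 0 < 1 - θ := by linarith
  set Λ : ℝ := 14 / (1 - θ) with hΛdef
  have hΛ : 1 ≤ Λ := by
    rw [hΛdef, le_div_iff₀ h1θ]; linarith
  obtain ⟨δ₀, m₀, hδ₀, H⟩ := exists_exact Λ γ hΛ hγ
  obtain ⟨Q, hQ⟩ := exists_nat_ge ((14 + 14 * (m₀:ℝ)) / (1 - θ))
  refine ⟨δ₀, hδ₀, Q + 1, ?_⟩
  intro q hq M x hM hx hne
  have hqQ : (Q:ℝ) + 1 ≤ q := by exact_mod_cast hq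
  have hq1 : (14 + 14 * (m₀:ℝ)) ≤ (1 - θ) * q := by
    rw [div_le_iff₀ h1θ] at hQ
    nlinarith
  have hq0 : (0:ℝ) < q := by
    have : (0:ℝ) ≤ Q := by positivity
    linarith
  set m := ⌊(1 - θ) * q / 7⌋₊ with hm
  have hm1 : (m:ℝ) ≤ (1 - θ) * q / 7 := Nat.floor_le (by positivity)
  have hm2 : (1 - θ) * q / 7 < m + 1 := Nat.lt_floor_add_one _
  have hm0 : (0:ℝ) ≤ m₀ := by positivity
  have hm3 : (1 - θ) * q / 14 ≤ m := by linarith
  have hmm0 : m₀ ≤ m := by
    have : (m₀:ℝ) ≤ m := by linarith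
    exact_mod_cast this
  have hmpos : 1 ≤ m := by
    have : (1:ℝ) ≤ m := by linarith
    exact_mod_cast this
  have hmq : m ≤ q := by
    have : (m:ℝ) ≤ q := by nlinarith
    exact_mod_cast this
  have hm' : (0:ℝ) < m := by exact_mod_cast hmpos
  have hMpos : 0 < M := by
    have : (0:ℝ) < M := lt_of_lt_of_le (by positivity) hM
    exact_mod_cast this
  have hNE := NE_of_near q m x δ₀ (δ₀ / 2) hMpos hmpos hmq hδ₀.le le_rfl hne
  obtain ⟨x', hx', hinj, hclose⟩ := exists_injective x hx (δ₀ / ((2 * q + 1) * m ^ 2)) (by positivity)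
  have hNE' := NE_perturb q m x x' δ₀ _ hMpos hmpos hclose (by
    apply le_of_eq; field_simp) hNE
  apply H M q m ⌊θ * q⌋₊ x' hMpos hmpos hmm0
  · rw [hΛdef, div_mul_eq_mul_div, le_div_iff₀ h1θ]
    linarith
  · have h1 : ((⌊θ * q⌋₊ : ℕ) : ℝ) ≤ θ * q := Nat.floor_le (by positivity)
    have h2 : ((⌊θ * q⌋₊ + 7 * m : ℕ) : ℝ) ≤ q := by
      push_cast
      linarith
    exact_mod_cast h2
  · refine le_trans ?_ hM
    gcongr
  · exact hNE'
  · exact hx'
  · exact hinj

end Pool.Agent.H89.Cheb
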