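import Pool.Agent.H89.Cheb.Basic

set_option autoImplicit false
open MeasureTheory intervalIntegral Real Set Polynomial

namespace Pool.Agent.H89.Cheb

lemma continuous_eval_cos' (g : ℝ[X]) : Continuous (fun t : ℝ => g.eval (cos t)) :=
  g.continuous.comp continuous_cos

/-- squaring trick: `(∑ w)² ≥ ∑ w²`. -/
lemma card_lower {ι : Type*} [Fintype ι] (p : ℕ) (φ : ι → ℝ) (hφ : Exact p φ) (w : ℝ[X])
    (hw : 2 * w.natDegree ≤ p) (hw0 : ∀ t, 0 ≤ w.eval (cos t)) (hpos : 0 < Fintype.card ι) :
    2 * (∫ t in (0:ℝ)..π, (w.eval (cos t)) ^ 2 * sin t)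
      ≤ (Fintype.card ι : ℝ) * (∫ t in (0:ℝ)..π, w.eval (cos t) * sin t) ^ 2 := by
  have h1 := hφ w (by omega)
  have h2 := hφ (w ^ 2) ((Polynomial.natDegree_pow_le).trans (by omega))
  simp only [Polynomial.eval_pow] at h2
  have h3 : ∑ i, (w.eval (cos (φ i))) ^ 2 ≤ (∑ i, w.eval (cos (φ i))) ^ 2 :=
    Finset.sum_sq_le_sq_sum_of_nonneg (fun i _ => hw0 _)
  rw [h1, h2] at h3
  have hN : (0:ℝ) < Fintype.card ι := by exact_mod_cast hpos
  have : (Fintype.card ι : ℝ) * (2 * ∫ t in (0:ℝ)..π, (w.eval (cos t)) ^ 2 * sin t)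
      ≤ (Fintype.card ι : ℝ) * ((Fintype.card ι : ℝ) * (∫ t in (0:ℝ)..π, w.eval (cos t) * sin t) ^ 2) := by
    nlinarith
  exact le_of_mul_le_mul_left this hN

/-- The Chebyshev kernel `U_{k-1}`, `k ≥ 1`. -/
noncomputable def UU (k : ℕ) : ℝ[X] := Polynomial.Chebyshev.U ℝ ((k : ℤ) - 1)

lemma UU_mul_sin (k : ℕ) (t : ℝ) : (UU k).eval (cos t) * sin t = sin (k * t) := by
  have := Polynomial.Chebyshev.U_real_cos t ((k : ℤ) - 1)
  rw [UU, this]
  push_cast
  ring_nf

lemma UU_natDegree (k : ℕ) : (UU (k + 1)).natDegree = k := by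
  have : ((k + 1 : ℕ) : ℤ) - 1 = (k : ℤ) := by push_cast; ring
  rw [UU, this, Polynomial.Chebyshev.natDegree_U_natCast]

lemma abs_sin_nat_mul_le' (m : ℕ) (x : ℝ) : |sin (m * x)| ≤ m * |sin x| := by
  induction m with
  | zero => simp
  | succ m ih =>
    have : ((m + 1 : ℕ) : ℝ) * x = m * x + x := by push_cast; ring
    rw [this, sin_add]
    calc |sin (m * x) * cos x + cos (m * x) * sin x|
        ≤ |sin (m * x) * cos x| + |cos (m * x) * sin x| := abs_add_le _ _
      _ ≤ |sin (m * x)| * 1 + 1 * |sin x| := by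
          rw [abs_mul, abs_mul]
          gcongr
          · exact abs_cos_le_one _
          · exact abs_cos_le_one _
      _ ≤ ((m + 1 : ℕ) : ℝ) * |sin x| := by push_cast; linarith

lemma upper_int (k : ℕ) (hk : 0 < k) :
    ∫ t in (0:ℝ)..π, ((UU k) ^ 4).eval (cos t) * sin t ≤ 8 * k ^ 2 := by
  have hk' : (0:ℝ) < k := by exact_mod_cast hk
  set A : ℝ := 1 + 1 / k ^ 2 with hA
  have hA1 : 1 < A := by rw [hA]; have : 0 < 1 / (k:ℝ) ^ 2 := by positivity
                         linarith
  have hpos1 : ∀ t : ℝ, 0 < A - cos t := fun t => by linarith [cos_le_one t]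
  have hpos2 : ∀ t : ℝ, 0 < A + cos t := fun t => by linarith [neg_one_le_cos t]
  have hprim1 : ∫ t in (0:ℝ)..π, sin t / (A - cos t) ^ 2 ≤ k ^ 2 := by
    have h1 : ∀ t ∈ uIcc (0:ℝ) π, HasDerivAt (fun t => -(A - cos t)⁻¹) (sin t / (A - cos t) ^ 2) t := by
      intro t _
      have h2 : HasDerivAt (fun t => A - cos t) (sin t) t := by
        have := (hasDerivAt_cos t).const_sub A
        simpa using this
      have h3 := (h2.inv (hpos1 t).ne').neg
      rw [neg_div, neg_neg] at h3
      exact h3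
    rw [intervalIntegral.integral_eq_sub_of_hasDerivAt h1]
    · rw [cos_pi, cos_zero]
      have h5 : (A - 1)⁻¹ = k ^ 2 := by rw [hA]; field_simp; ring
      have h6 : 0 < (A - -1)⁻¹ := by apply inv_pos.2; linarith
      rw [h5]; linarith
    · apply ContinuousOn.intervalIntegrable
      intro t _
      apply ContinuousAt.continuousWithinAt
      apply ContinuousAt.div continuous_sin.continuousAt
      · fun_prop
      · exact (pow_pos (hpos1 t) 2).ne'
  have hprim2 : ∫ t in (0:ℝ)..π, sin t / (A + cos t) ^ 2 ≤ k ^ 2 := by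
    have := intervalIntegral.integral_comp_sub_left (a := 0) (b := π)
      (fun t => sin t / (A - cos t) ^ 2) π
    simp only [sin_pi_sub, cos_pi_sub, sub_neg_eq_add, sub_zero, sub_self] at this
    rw [this]
    exact hprim1
  have hi1 : IntervalIntegrable (fun t => 4 * (sin t / (A - cos t) ^ 2)) volume 0 π := by
    apply Continuous.intervalIntegrable
    apply Continuous.mul continuous_const
    apply Continuous.div continuous_sin (by fun_prop)
    intro t; exact (pow_pos (hpos1 t) 2).ne'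
  have hi2 : IntervalIntegrable (fun t => 4 * (sin t / (A + cos t) ^ 2)) volume 0 π := by
    apply Continuous.intervalIntegrable
    apply Continuous.mul continuous_const
    apply Continuous.div continuous_sin (by fun_prop)
    intro t; exact (pow_pos (hpos2 t) 2).ne'
  calc ∫ t in (0:ℝ)..π, ((UU k) ^ 4).eval (cos t) * sin t
      ≤ ∫ t in (0:ℝ)..π, (4 * (sin t / (A - cos t) ^ 2) + 4 * (sin t / (A + cos t) ^ 2)) := by
        apply intervalIntegral.integral_mono_on pi_pos.le
        · exact ((continuous_eval_cos' _).mul continuous_sin).intervalIntegrable _ _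
        · exact hi1.add hi2
        · intro t ht
          have hs0 : 0 ≤ sin t := sin_nonneg_of_mem_Icc ht
          rcases hs0.eq_or_lt with h | h
          · rw [← h]; simp
          · set V := (UU k).eval (cos t) with hV
            have hVs := UU_mul_sin k t
            rw [← hV] at hVs
            have h1 : V ^ 2 ≤ k ^ 2 := by
              have := abs_sin_nat_mul_le' k t
              rw [← hVs, abs_mul, abs_of_pos h] at this
              have h2 : |V| ≤ k := le_of_mul_le_mul_right this h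
              rw [← sq_abs V]
              exact pow_le_pow_left₀ (abs_nonneg _) h2 2
            have h2 : V ^ 2 * sin t ^ 2 ≤ 1 := by
              rw [← mul_pow, hVs]
              exact sin_sq_le_one _
            have h3 : V ^ 2 * (A - cos t ^ 2) ≤ 2 := by
              have : A - cos t ^ 2 = 1 / k ^ 2 + sin t ^ 2 := by
                rw [hA, sin_sq]; ring
              rw [this, mul_add]
              have : V ^ 2 * (1 / k ^ 2) ≤ 1 := by
                rw [mul_one_div, div_le_one (by positivity)]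
                exact h1
              linarith
            rw [Polynomial.eval_pow, ← hV]
            have hV2 : 0 ≤ V ^ 2 := sq_nonneg V
            rcases le_total 0 (cos t) with hc | hc
            · have h4 : V ^ 2 * (A - cos t) ≤ 2 := by
                refine le_trans ?_ h3
                apply mul_le_mul_of_nonneg_left _ hV2
                nlinarith [cos_le_one t]
              have h5 : V ^ 4 ≤ 4 / (A - cos t) ^ 2 := by
                rw [le_div_iff₀ (pow_pos (hpos1 t) 2)]
                have : V ^ 4 * (A - cos t) ^ 2 = (V ^ 2 * (A - cos t)) ^ 2 := by ring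
                rw [this]
                have h7 : 0 ≤ V ^ 2 * (A - cos t) := mul_nonneg hV2 (hpos1 t).le
                nlinarith
              have h6 : 0 ≤ 4 * (sin t / (A + cos t) ^ 2) := by
                have := hpos2 t
                positivity
              calc V ^ 4 * sin t ≤ 4 / (A - cos t) ^ 2 * sin t := by gcongr
                _ = 4 * (sin t / (A - cos t) ^ 2) := by ring
                _ ≤ _ := by linarith
            · have h4 : V ^ 2 * (A + cos t) ≤ 2 := by
                refine le_trans ?_ h3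
                apply mul_le_mul_of_nonneg_left _ hV2
                nlinarith [neg_one_le_cos t]
              have h5 : V ^ 4 ≤ 4 / (A + cos t) ^ 2 := by
                rw [le_div_iff₀ (pow_pos (hpos2 t) 2)]
                have : V ^ 4 * (A + cos t) ^ 2 = (V ^ 2 * (A + cos t)) ^ 2 := by ring
                rw [this]
                have h7 : 0 ≤ V ^ 2 * (A + cos t) := mul_nonneg hV2 (hpos2 t).le
                nlinarith
              have h6 : 0 ≤ 4 * (sin t / (A - cos t) ^ 2) := by
                have := hpos1 t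
                positivity
              calc V ^ 4 * sin t ≤ 4 / (A + cos t) ^ 2 * sin t := by gcongr
                _ = 4 * (sin t / (A + cos t) ^ 2) := by ring
                _ ≤ _ := by linarith
    _ = 4 * (∫ t in (0:ℝ)..π, sin t / (A - cos t) ^ 2) + 4 * ∫ t in (0:ℝ)..π, sin t / (A + cos t) ^ 2 := by
        rw [intervalIntegral.integral_add hi1 hi2, intervalIntegral.integral_const_mul,
          intervalIntegral.integral_const_mul]
    _ ≤ 8 * k ^ 2 := by linarith

lemma lower_int (k : ℕ) (hk : 0 < k) :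
    (k:ℝ) ^ 6 / 10 ≤ ∫ t in (0:ℝ)..π, (((UU k) ^ 4).eval (cos t)) ^ 2 * sin t := by
  have hk' : (0:ℝ) < k := by exact_mod_cast hk
  have hk1 : (1:ℝ) ≤ k := by exact_mod_cast hk
  have hx1 : 1 / (k:ℝ) ≤ 1 := by rw [div_le_one hk']; exact hk1
  have hx0 : 0 < 1 / (k:ℝ) := by positivity
  have hxπ : 1 / (k:ℝ) ≤ π := hx1.trans (by linarith [pi_gt_three])
  have hcont : Continuous fun t => (((UU k) ^ 4).eval (cos t)) ^ 2 * sin t :=
    ((continuous_eval_cos' _).pow 2).mul continuous_sin
  have hsplit : ∫ t in (0:ℝ)..π, (((UU k) ^ 4).eval (cos t)) ^ 2 * sin t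
      = (∫ t in (0:ℝ)..(1 / k), (((UU k) ^ 4).eval (cos t)) ^ 2 * sin t)
        + ∫ t in (1 / (k:ℝ))..π, (((UU k) ^ 4).eval (cos t)) ^ 2 * sin t :=
    (intervalIntegral.integral_add_adjacent_intervals (hcont.intervalIntegrable _ _)
      (hcont.intervalIntegrable _ _)).symm
  have hnn : 0 ≤ ∫ t in (1 / (k:ℝ))..π, (((UU k) ^ 4).eval (cos t)) ^ 2 * sin t := by
    apply intervalIntegral.integral_nonneg hxπ
    intro t ht
    exact mul_nonneg (sq_nonneg _) (sin_nonneg_of_mem_Icc ⟨hx0.le.trans ht.1, ht.2⟩)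
  have hmain : (5 / 6 * (k:ℝ)) ^ 8 * (1 - cos (1 / k))
      ≤ ∫ t in (0:ℝ)..(1 / k), (((UU k) ^ 4).eval (cos t)) ^ 2 * sin t := by
    have : (5 / 6 * (k:ℝ)) ^ 8 * (1 - cos (1 / k)) = ∫ t in (0:ℝ)..(1 / k), (5 / 6 * (k:ℝ)) ^ 8 * sin t := by
      rw [intervalIntegral.integral_const_mul, integral_sin, cos_zero]
    rw [this]
    apply intervalIntegral.integral_mono_on hx0.le
    · exact (continuous_const.mul continuous_sin).intervalIntegrable _ _
    · exact hcont.intervalIntegrable _ _
    · intro t ht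
      have hs0 : 0 ≤ sin t := sin_nonneg_of_mem_Icc ⟨ht.1, ht.2.trans hxπ⟩
      rcases ht.1.eq_or_lt with h0 | h0
      · rw [← h0]; simp
      have hspos : 0 < sin t := sin_pos_of_pos_of_lt_pi h0
        (lt_of_le_of_lt (ht.2.trans hx1) (by linarith [pi_gt_three]))
      set V := (UU k).eval (cos t) with hV
      have hVs := UU_mul_sin k t
      rw [← hV] at hVs
      have hu : (k:ℝ) * t ≤ 1 := by
        have := mul_le_mul_of_nonneg_left ht.2 hk'.le
        rwa [mul_one_div_cancel hk'.ne'] at this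
      have hu0 : 0 < (k:ℝ) * t := by positivity
      have h1 : 5 / 6 * (k * t) ≤ sin (k * t) := by
        have := sin_ge_sub_cube hu0.le
        have h3 : ((k:ℝ) * t) ^ 3 ≤ k * t := by
          have : ((k:ℝ) * t) ^ 2 ≤ 1 := by nlinarith
          calc ((k:ℝ) * t) ^ 3 = (k * t) ^ 2 * (k * t) := by ring
            _ ≤ 1 * (k * t) := by gcongr
            _ = k * t := one_mul _
        linarith
      have hst : sin t ≤ t := sin_le ht.1
      have hVpos : 5 / 6 * (k:ℝ) ≤ V := by
        rw [← hVs] at h1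
        have h4 : 5 / 6 * (k:ℝ) * sin t ≤ V * sin t := by
          refine le_trans ?_ h1
          nlinarith
        exact le_of_mul_le_mul_right h4 hspos
      rw [Polynomial.eval_pow, ← hV, ← pow_mul]
      have : (5 / 6 * (k:ℝ)) ^ 8 ≤ V ^ 8 := pow_le_pow_left₀ (by positivity) hVpos 8
      exact mul_le_mul_of_nonneg_right this hs0
  have hcos : 0.44 * (1 / (k:ℝ)) ^ 2 ≤ 1 - cos (1 / k) := by
    have hb := cos_bound (x := 1 / (k:ℝ)) (by rw [abs_of_pos hx0]; exact hx1)
    rw [abs_of_pos hx0] at hb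
    have h2 := (abs_le.1 hb).2
    have h3 : (1 / (k:ℝ)) ^ 4 ≤ (1 / (k:ℝ)) ^ 2 := pow_le_pow_of_le_one hx0.le hx1 (by norm_num)
    nlinarith
  rw [hsplit]
  have h8 : (5 / 6 * (k:ℝ)) ^ 8 * (0.44 * (1 / (k:ℝ)) ^ 2) ≤ (5 / 6 * (k:ℝ)) ^ 8 * (1 - cos (1 / k)) := by
    gcongr
  have h9 : (5 / 6 * (k:ℝ)) ^ 8 * (0.44 * (1 / (k:ℝ)) ^ 2) = (5 / 6) ^ 8 * 0.44 * k ^ 6 := by
    field_simp
  have h10 : (k:ℝ) ^ 6 / 10 ≤ (5 / 6) ^ 8 * 0.44 * k ^ 6 := by
    have : 0 < (k:ℝ) ^ 6 := by positivity
    norm_num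
    nlinarith
  linarith

/-- **Lower bound**: an exact formula of degree `p` has at least `p²/20480` nodes. -/
theorem lower {ι : Type*} [Fintype ι] (p : ℕ) (φ : ι → ℝ) (hφ : Exact p φ)
    (hpos : 0 < Fintype.card ι) : (p:ℝ) ^ 2 / 20480 ≤ Fintype.card ι := by
  set k := p / 8 + 1 with hk
  have hk0 : 0 < k := by omega
  have hdeg : 2 * ((UU k) ^ 4).natDegree ≤ p := by
    have : ((UU k) ^ 4).natDegree ≤ 4 * (p / 8) := by
      refine (Polynomial.natDegree_pow_le).trans ?_
      rw [hk, UU_natDegree]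
    omega
  have h1 := card_lower p φ hφ ((UU k) ^ 4) hdeg (fun t => by
    rw [Polynomial.eval_pow]; positivity) hpos
  have h2 := lower_int k hk0
  have h3 := upper_int k hk0
  have h4 : 0 ≤ ∫ t in (0:ℝ)..π, ((UU k) ^ 4).eval (cos t) * sin t := by
    apply intervalIntegral.integral_nonneg pi_pos.le
    intro t ht
    apply mul_nonneg _ (sin_nonneg_of_mem_Icc ht)
    rw [Polynomial.eval_pow]; positivity
  have hkr : (p:ℝ) / 8 ≤ k := by
    have : p ≤ 8 * k := by omega
    have : (p:ℝ) ≤ 8 * k := by exact_mod_cast this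
    linarith
  have hk' : (0:ℝ) < k := by exact_mod_cast hk0
  have hN : (0:ℝ) < Fintype.card ι := by exact_mod_cast hpos
  have h5 : 2 * ((k:ℝ) ^ 6 / 10) ≤ (Fintype.card ι : ℝ) * (8 * k ^ 2) ^ 2 := by
    have h2' : 2 * ((k:ℝ) ^ 6 / 10) ≤ 2 * (∫ t in (0:ℝ)..π, (((UU k) ^ 4).eval (cos t)) ^ 2 * sin t) := by
      linarith
    refine h2'.trans (h1.trans ?_)
    gcongr
  have h6 : (k:ℝ) ^ 2 / 320 ≤ Fintype.card ι := by
    have h7 : (k:ℝ) ^ 4 * ((k:ℝ) ^ 2 / 320) ≤ (k:ℝ) ^ 4 * (Fintype.card ι : ℝ) := by nlinarith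
    exact le_of_mul_le_mul_left h7 (by positivity)
  have h8 : ((p:ℝ) / 8) ^ 2 ≤ (k:ℝ) ^ 2 := pow_le_pow_left₀ (by positivity) hkr 2
  nlinarith

end Pool.Agent.H89.Cheb
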