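import Pool.Agent.H89.Cheb.Seed
import Pool.Agent.H89.Cheb.Lower

set_option autoImplicit false
open MeasureTheory intervalIntegral Real Set Polynomial Filter

namespace Pool.Agent.H89.Cheb

/-- The core transplantation theorem (statement). -/
def Core : Prop := ∀ (θ γ : ℝ), 0 < θ → θ < 1 → 0 < γ → ∃ ε > 0, ∃ q0 : ℕ, ∀ q ≥ q0,
  ∀ (M : ℕ) (x : Fin M → ℝ), γ * (q:ℝ) ^ 2 ≤ M → (∀ i, x i ∈ Icc 0 π) → NearExact ε q x →
    ∃ y : Fin M → ℝ, Exact ⌊θ * q⌋₊ y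

lemma Exact.mono {ι : Type*} [Fintype ι] {p p' : ℕ} (h : p' ≤ p) {x : ι → ℝ} (hx : Exact p x) :
    Exact p' x := fun g hg => hx g (hg.trans h)

lemma integral_cos (g : ℝ[X]) :
    ∫ t in (0:ℝ)..π, g.eval (cos t) * sin t = ∫ t in (-1:ℝ)..1, g.eval t := by
  have h := intervalIntegral.integral_comp_mul_deriv (a := 0) (b := π) (f := cos)
    (f' := fun t => -sin t) (g := fun t => g.eval t) (fun t _ => hasDerivAt_cos t)
    (continuous_sin.neg.continuousOn) g.continuous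
  rw [cos_zero, cos_pi, intervalIntegral.integral_symm (-1) 1] at h
  have h2 : ∫ t in (0:ℝ)..π, ((fun t => g.eval t) ∘ cos) t * -sin t
      = - ∫ t in (0:ℝ)..π, g.eval (cos t) * sin t := by
    rw [← intervalIntegral.integral_neg]
    apply intervalIntegral.integral_congr
    intro t _
    simp
  rw [h2] at h
  linarith

/-- the admissible orders -/
def SS (p : ℕ) : Set ℕ := {N : ℕ | 0 < N ∧ ∃ x : Fin N → ℝ,
              (∀ i, x i ∈ Set.Icc (-1 : ℝ) 1) ∧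
              ∀ f : Polynomial ℝ, f.natDegree ≤ p →
                (1 / (N : ℝ)) * ∑ i, f.eval (x i) =
                  (1 / 2 : ℝ) * intervalIntegral (fun t => f.eval t) (-1) 1 MeasureTheory.volume}

lemma mem_SS (p N : ℕ) : N ∈ SS p ↔ 0 < N ∧ ∃ ψ : Fin N → ℝ, Exact p ψ := by
  constructor
  · rintro ⟨hN, x, hx, h⟩
    refine ⟨hN, fun i => arccos (x i), fun g hg => ?_⟩
    have hN' : (N:ℝ) ≠ 0 := by positivity
    have h1 := h g hg
    have h2 : ∑ i, g.eval (cos (arccos (x i))) = ∑ i, g.eval (x i) := by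
      apply Finset.sum_congr rfl
      intro i _
      rw [cos_arccos (hx i).1 (hx i).2]
    rw [h2, integral_cos, Fintype.card_fin]
    field_simp at h1
    linarith
  · rintro ⟨hN, ψ, hψ⟩
    refine ⟨hN, fun i => cos (ψ i), fun i => cos_mem_Icc _, fun f hf => ?_⟩
    have hN' : (N:ℝ) ≠ 0 := by positivity
    have h1 := hψ f hf
    rw [integral_cos, Fintype.card_fin] at h1
    rw [h1]
    field_simp

lemma SS_mono {p p' : ℕ} (h : p' ≤ p) : SS p ⊆ SS p' := by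
  intro N hN
  rw [mem_SS] at hN ⊢
  obtain ⟨h1, ψ, hψ⟩ := hN
  exact ⟨h1, ψ, hψ.mono h⟩

lemma SS_lower {p N : ℕ} (h : N ∈ SS p) : (p:ℝ) ^ 2 / 20480 ≤ N := by
  rw [mem_SS] at h
  obtain ⟨h1, ψ, hψ⟩ := h
  have := lower p ψ hψ (by simpa using h1)
  simpa using this

lemma SS_nonempty (core : Core) (p : ℕ) : (SS p).Nonempty := by
  obtain ⟨ε, hε, q0, h⟩ := core (1 / 2) 1 (by norm_num) (by norm_num) (by norm_num)
  set q := max q0 (2 * p + 2) with hq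
  have hq1 : q0 ≤ q := le_max_left _ _
  have hq2 : 2 * p + 2 ≤ q := le_max_right _ _
  obtain ⟨M, hM⟩ := exists_nat_ge (π ^ 2 * q ^ 2 / (32 * ε ^ 2) + (q:ℝ) ^ 2 + 1)
  have hc1 : 0 ≤ π ^ 2 * (q:ℝ) ^ 2 / (32 * ε ^ 2) := by positivity
  have hc2 : π ^ 2 * (q:ℝ) ^ 2 / (32 * ε ^ 2) ≤ M := by
    have : 0 ≤ (q:ℝ) ^ 2 := by positivity
    linarith
  obtain ⟨x, hx, hx2⟩ := seed_base q M (by omega) ε hε (by
    rw [div_le_iff₀ (by positivity)] at hc2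
    linarith)
  obtain ⟨y, hy⟩ := h q hq1 M x (by linarith) hx hx2
  refine ⟨M, (mem_SS p M).2 ⟨?_, y, hy.mono ?_⟩⟩
  · have : (0:ℝ) < M := by
      have : 0 ≤ (q:ℝ) ^ 2 := by positivity
      linarith
    exact_mod_cast this
  · apply Nat.le_floor
    have : (2 * p + 2 : ℝ) ≤ q := by exact_mod_cast hq2
    linarith

/-- **Key inequality**. -/
lemma SS_scale (core : Core) (θ : ℝ) (hθ0 : 0 < θ) (hθ : θ < 1) :
    ∃ p0 : ℕ, ∀ p ≥ p0, ∀ m : ℕ, 0 < m → ∀ N ∈ SS p, m ^ 2 * N ∈ SS ⌊θ * (p * m : ℕ)⌋₊ := by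
  obtain ⟨ε, hε, q0, h⟩ := core θ (1 / 20480) hθ0 hθ (by norm_num)
  obtain ⟨P, hP⟩ := exists_nat_ge (π ^ 4 * 20480 ^ 3 / (6144 * ε ^ 4))
  refine ⟨max q0 (P + 1), fun p hp m hm N hN => ?_⟩
  have hp1 : q0 ≤ p := (le_max_left _ _).trans hp
  have hp2 : P + 1 ≤ p := (le_max_right _ _).trans hp
  have hp0 : 0 < p := by omega
  have hlow := SS_lower hN
  rw [mem_SS] at hN
  obtain ⟨hN0, φ, hφ⟩ := hN
  have hp' : (0:ℝ) < p := by exact_mod_cast hp0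
  have hN' : (0:ℝ) < N := by exact_mod_cast hN0
  have hc : π ^ 4 * (p:ℝ) ^ 4 ≤ 6144 * ε ^ 4 * (Fintype.card (Fin N) : ℝ) ^ 3 := by
    rw [Fintype.card_fin]
    have h1 : ((p:ℝ) ^ 2 / 20480) ^ 3 ≤ (N:ℝ) ^ 3 := pow_le_pow_left₀ (by positivity) hlow 3
    have h2 : π ^ 4 * 20480 ^ 3 / (6144 * ε ^ 4) ≤ (p:ℝ) ^ 2 := by
      have h3 : (P:ℝ) + 1 ≤ p := by exact_mod_cast hp2
      have h4 : (0:ℝ) ≤ P := by positivity
      nlinarith
    rw [div_le_iff₀ (by positivity)] at h2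
    have h5 : π ^ 4 * 20480 ^ 3 * (p:ℝ) ^ 4 ≤ (p:ℝ) ^ 2 * (6144 * ε ^ 4) * (p:ℝ) ^ 4 := by gcongr
    have h6 : (p:ℝ) ^ 2 * (6144 * ε ^ 4) * (p:ℝ) ^ 4 = 6144 * ε ^ 4 * 20480 ^ 3 * ((p:ℝ) ^ 2 / 20480) ^ 3 := by
      ring
    have h7 : 6144 * ε ^ 4 * 20480 ^ 3 * ((p:ℝ) ^ 2 / 20480) ^ 3 ≤ 6144 * ε ^ 4 * 20480 ^ 3 * (N:ℝ) ^ 3 := by
      gcongr
    have h8 : (20480:ℝ) ^ 3 * (π ^ 4 * (p:ℝ) ^ 4) ≤ 20480 ^ 3 * (6144 * ε ^ 4 * (N:ℝ) ^ 3) := by linarith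
    exact le_of_mul_le_mul_left h8 (by norm_num)
  have hseed := seed_pull p m hp0 hm φ hφ ε hε hc
  rw [Fintype.card_fin] at hseed
  obtain ⟨x, hx, hx2⟩ := hseed
  obtain ⟨y, hy⟩ := h (p * m) (by nlinarith) (m ^ 2 * N) x (by
    push_cast
    have : (m:ℝ) ^ 2 * ((p:ℝ) ^ 2 / 20480) ≤ (m:ℝ) ^ 2 * N := by gcongr
    linarith) hx hx2
  exact (mem_SS _ _).2 ⟨by positivity, y, hy⟩

/-- Abstract limit lemma. -/
lemma tendsto_of_scale (n : ℕ → ℕ) (hmono : Monotone n) (γ : ℝ) (hγ : 0 < γ)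
    (hlow : ∀ p : ℕ, γ * (p:ℝ) ^ 2 ≤ n p)
    (hscale : ∀ θ : ℝ, 0 < θ → θ < 1 → ∃ p0 : ℕ, ∀ p ≥ p0, ∀ m : ℕ, 0 < m →
      n ⌊θ * (p * m : ℕ)⌋₊ ≤ m ^ 2 * n p) :
    ∃ c : ℝ, 0 < c ∧ Tendsto (fun p : ℕ => (n p : ℝ) / (p:ℝ) ^ 2) atTop (nhds c) := by
  set a : ℕ → ℝ := fun p => (n p : ℝ) / (p:ℝ) ^ 2 with ha
  -- key: for every θ and large p, eventually a Q ≤ θ^{-2} a p + δ
  have key : ∀ θ : ℝ, 0 < θ → θ < 1 → ∃ p0 : ℕ, ∀ p ≥ p0, 0 < p → ∀ δ > 0, ∀ᶠ Q in atTop,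
      a Q ≤ θ⁻¹ ^ 2 * a p + δ := by
    intro θ hθ0 hθ1
    obtain ⟨p0, hp0⟩ := hscale θ hθ0 hθ1
    refine ⟨p0, fun p hp hppos δ hδ => ?_⟩
    have hp' : (0:ℝ) < p := by exact_mod_cast hppos
    -- b Q := ((Q+1)/(θ p) + 1)/Q tends to 1/(θ p)
    have hlim : Tendsto (fun Q : ℕ => (((Q:ℝ) + 1) / (θ * p) + 1) / Q) atTop (nhds (1 / (θ * p))) := by
      have h1 : Tendsto (fun Q : ℕ => 1 / (θ * p) + (1 / (θ * p) + 1) * (1 / (Q:ℝ))) atTop
          (nhds (1 / (θ * p) + (1 / (θ * p) + 1) * 0)) :=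
        tendsto_const_nhds.add (tendsto_const_nhds.mul tendsto_one_div_atTop_nhds_zero_nat)
      rw [mul_zero, add_zero] at h1
      refine h1.congr' ?_
      filter_upwards [eventually_gt_atTop 0] with Q hQ
      have hQ' : (0:ℝ) < Q := by exact_mod_cast hQ
      field_simp
      ring
    have hlim2 : Tendsto (fun Q : ℕ => ((((Q:ℝ) + 1) / (θ * p) + 1) / Q) ^ 2 * n p) atTop
        (nhds ((1 / (θ * p)) ^ 2 * n p)) := (hlim.pow 2).mul_const _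
    have heq : (1 / (θ * p)) ^ 2 * (n p : ℝ) = θ⁻¹ ^ 2 * a p := by
      simp only [ha]; field_simp
    rw [heq] at hlim2
    have hev := hlim2.eventually (ge_mem_nhds (show θ⁻¹ ^ 2 * a p < θ⁻¹ ^ 2 * a p + δ by linarith))
    filter_upwards [hev, eventually_gt_atTop 0] with Q hQ hQ0
    refine le_trans ?_ hQ
    have hQ' : (0:ℝ) < Q := by exact_mod_cast hQ0
    set m := ⌈((Q:ℝ) + 1) / (θ * p)⌉₊ with hm
    have hm1 : ((Q:ℝ) + 1) / (θ * p) ≤ m := Nat.le_ceil _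
    have hm2 : (m:ℝ) < ((Q:ℝ) + 1) / (θ * p) + 1 := Nat.ceil_lt_add_one (by positivity)
    have hmpos : 0 < m := Nat.ceil_pos.2 (by positivity)
    have hm3 : (Q:ℝ) + 1 ≤ θ * (p * m : ℕ) := by
      rw [div_le_iff₀ (by positivity)] at hm1
      push_cast
      linarith
    have hfl : Q ≤ ⌊θ * (p * m : ℕ)⌋₊ := Nat.le_floor (by linarith)
    have h1 : n Q ≤ m ^ 2 * n p := (hmono hfl).trans (hp0 p hp m hmpos)
    have h2 : (n Q : ℝ) ≤ (m:ℝ) ^ 2 * n p := by exact_mod_cast h1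
    simp only [ha]
    rw [div_pow, div_mul_eq_mul_div]
    gcongr
    refine h2.trans ?_
    gcongr
  have hanon : ∀ p, 0 ≤ a p := fun p => by simp only [ha]; positivity
  -- boundedness
  obtain ⟨p1, hp1⟩ := key (1 / 2) (by norm_num) (by norm_num)
  have hbdd : ∃ B, ∀ᶠ Q in atTop, a Q ≤ B :=
    ⟨_, hp1 (p1 + 1) (by omega) (by omega) 1 one_pos⟩
  obtain ⟨B, hB⟩ := hbdd
  have hbu : IsBoundedUnder (· ≤ ·) atTop a := ⟨B, by simpa using hB⟩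
  have hbl : IsBoundedUnder (· ≥ ·) atTop a := ⟨0, eventually_map.2 (Eventually.of_forall (fun p => hanon p))⟩
  set L := liminf a atTop with hL
  have hLlow : γ ≤ L := by
    apply le_liminf_of_le hbu.isCoboundedUnder_ge
    filter_upwards [eventually_gt_atTop 0] with p hp
    have hp' : (0:ℝ) < p := by exact_mod_cast hp
    simp only [ha]
    rw [le_div_iff₀ (by positivity)]
    exact hlow p
  have hLpos : 0 < L := lt_of_lt_of_le hγ hLlow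
  have hsup : ∀ θ : ℝ, 0 < θ → θ < 1 → limsup a atTop ≤ θ⁻¹ ^ 2 * L := by
    intro θ hθ0 hθ1
    obtain ⟨p0, hp0⟩ := key θ hθ0 hθ1
    apply le_of_forall_pos_le_add
    intro δ hδ
    have hθ2 : 0 < θ⁻¹ ^ 2 := by positivity
    have hfr : ∃ᶠ p in atTop, a p < L + δ / (2 * θ⁻¹ ^ 2) :=
      frequently_lt_of_liminf_lt hbu.isCoboundedUnder_ge (by
        rw [← hL]
        have : 0 < δ / (2 * θ⁻¹ ^ 2) := by positivity
        linarith)
    obtain ⟨p, hp1, hp2⟩ := (hfr.and_eventually (eventually_ge_atTop (max p0 1))).exists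
    have h1 := hp0 p ((le_max_left _ _).trans hp2) (by have := (le_max_right p0 1).trans hp2; omega) (δ / 2) (by linarith)
    refine limsup_le_of_le hbl.isCoboundedUnder_le ?_
    filter_upwards [h1] with Q hQ
    have h3 : θ⁻¹ ^ 2 * a p ≤ θ⁻¹ ^ 2 * (L + δ / (2 * θ⁻¹ ^ 2)) := by gcongr
    have h4 : θ⁻¹ ^ 2 * (L + δ / (2 * θ⁻¹ ^ 2)) = θ⁻¹ ^ 2 * L + δ / 2 := by field_simp
    linarith
  have hle : limsup a atTop ≤ L := by
    have hcont : Tendsto (fun θ : ℝ => θ⁻¹ ^ 2 * L) (nhdsWithin 1 (Iio 1)) (nhds (1⁻¹ ^ 2 * L)) := by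
      apply Tendsto.mono_left _ nhdsWithin_le_nhds
      apply ContinuousAt.tendsto
      have : ContinuousAt (fun θ : ℝ => θ⁻¹) 1 := continuousAt_inv₀ one_ne_zero
      exact (this.pow 2).mul continuousAt_const
    have h1 : (1:ℝ)⁻¹ ^ 2 * L = L := by norm_num
    rw [h1] at hcont
    refine ge_of_tendsto hcont ?_
    have : ∀ᶠ θ in nhdsWithin (1:ℝ) (Iio 1), 0 < θ :=
      nhdsWithin_le_nhds (lt_mem_nhds one_pos)
    filter_upwards [this, self_mem_nhdsWithin] with θ h0 h1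
    exact hsup θ h0 h1
  refine ⟨L, hLpos, ?_⟩
  exact tendsto_of_le_liminf_of_limsup_le le_rfl hle hbu hbl

/-- The frozen statement from the core theorem. -/
theorem main_of_core (core : Core) :
    ∃ c : ℝ, 0 < c ∧
      Filter.Tendsto
        (fun p : ℕ =>
          ((sInf {N : ℕ | 0 < N ∧ ∃ x : Fin N → ℝ,
              (∀ i, x i ∈ Set.Icc (-1 : ℝ) 1) ∧
              ∀ f : Polynomial ℝ, f.natDegree ≤ p →
                (1 / (N : ℝ)) * ∑ i, f.eval (x i) =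
                  (1 / 2 : ℝ) * intervalIntegral (fun t => f.eval t) (-1) 1 MeasureTheory.volume}
            : ℕ) : ℝ) / ((p : ℝ) ^ 2))
        Filter.atTop (nhds c) := by
  have hmem : ∀ p, sInf (SS p) ∈ SS p := fun p => Nat.sInf_mem (SS_nonempty core p)
  refine tendsto_of_scale (fun p => sInf (SS p)) ?_ (1 / 20480) (by norm_num) ?_ ?_
  · intro p p' h
    exact Nat.sInf_le (SS_mono h (hmem p'))
  · intro p
    have := SS_lower (hmem p)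
    linarith
  · intro θ hθ0 hθ1
    obtain ⟨p0, hp0⟩ := SS_scale core θ hθ0 hθ1
    refine ⟨p0, fun p hp m hm => ?_⟩
    exact Nat.sInf_le (hp0 p hp m hm _ (hmem p))

end Pool.Agent.H89.Cheb
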