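import Mathlib

set_option autoImplicit false
open MeasureTheory intervalIntegral Real Set

namespace Pool.Agent.H89.Cheb

/-- counting points below `t` -/
lemma count_bound (M : ℕ) (P : Fin M → Prop) [DecidablePred P] (r : ℝ) (hr0 : 0 ≤ r) (hrM : r ≤ M)
    (h1 : ∀ i, P i → (i : ℝ) + 1 / 2 ≤ r) (h2 : ∀ i, ¬ P i → r ≤ (i : ℝ) + 1 / 2) :
    |r - ((Finset.univ.filter P).card : ℝ)| ≤ min (1 / 2) (min r (M - r)) := by
  set k := (Finset.univ.filter P).card with hk
  have hkM : k ≤ M := by
    calc k ≤ (Finset.univ : Finset (Fin M)).card := Finset.card_le_card (Finset.filter_subset _ _)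
      _ = M := by simp
  -- upper bound
  have hA : ((k : ℕ) : ℝ) ≤ r + 1 / 2 := by
    have hsub : (Finset.univ.filter P).map Fin.valEmbedding ⊆ Finset.range ⌊r + 1 / 2⌋₊ := by
      intro x hx
      simp only [Finset.mem_map, Finset.mem_filter, Finset.mem_univ, true_and] at hx
      obtain ⟨i, hi, rfl⟩ := hx
      simp only [Fin.valEmbedding_apply, Finset.mem_range]
      have := h1 i hi
      have h3 : (i : ℕ) + 1 ≤ ⌊r + 1 / 2⌋₊ := by
        apply Nat.le_floor
        push_cast
        linarith
      omega
    have := Finset.card_le_card hsub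
    rw [Finset.card_map, Finset.card_range] at this
    calc ((k : ℕ) : ℝ) ≤ (⌊r + 1 / 2⌋₊ : ℝ) := by exact_mod_cast this
      _ ≤ r + 1 / 2 := Nat.floor_le (by linarith)
  have hB : r - 1 / 2 ≤ ((k : ℕ) : ℝ) := by
    have hc : (Finset.univ.filter (fun i => ¬ P i)).card = M - k := by
      have := Finset.card_filter_add_card_filter_not (s := (Finset.univ : Finset (Fin M))) P
      simp only [Finset.card_univ, Fintype.card_fin] at this
      omega
    have hsub : (Finset.univ.filter (fun i => ¬ P i)).map Fin.valEmbedding
        ⊆ (Finset.range ⌊(M : ℝ) - r + 1 / 2⌋₊).image (fun j => M - 1 - j) := by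
      intro x hx
      simp only [Finset.mem_map, Finset.mem_filter, Finset.mem_univ, true_and] at hx
      obtain ⟨i, hi, rfl⟩ := hx
      simp only [Fin.valEmbedding_apply, Finset.mem_image, Finset.mem_range]
      refine ⟨M - 1 - i, ?_, ?_⟩
      · have := h2 i hi
        have h3 : (M - 1 - i : ℕ) + 1 ≤ ⌊(M : ℝ) - r + 1 / 2⌋₊ := by
          apply Nat.le_floor
          have hi' := i.2
          have : (((M - 1 - (i : ℕ) : ℕ) + 1 : ℕ) : ℝ) = (M : ℝ) - i := by
            rw [show M - 1 - (i : ℕ) + 1 = M - i by omega]
            rw [Nat.cast_sub (by omega)]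
          rw [this]
          linarith
        omega
      · have hi' := i.2
        omega
    have := (Finset.card_le_card hsub).trans Finset.card_image_le
    rw [Finset.card_map, Finset.card_range, hc] at this
    have h4 : ((M - k : ℕ) : ℝ) ≤ (M : ℝ) - r + 1 / 2 := by
      calc ((M - k : ℕ) : ℝ) ≤ (⌊(M : ℝ) - r + 1 / 2⌋₊ : ℝ) := by exact_mod_cast this
        _ ≤ _ := Nat.floor_le (by linarith)
    rw [Nat.cast_sub hkM] at h4
    linarith
  have hhalf : |r - (k : ℝ)| ≤ 1 / 2 := by
    rw [abs_le]; constructor <;> linarith
  refine le_min hhalf (le_min ?_ ?_)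
  · by_cases hr : r < 1 / 2
    · have : k = 0 := by
        rw [hk, Finset.card_eq_zero, Finset.filter_eq_empty_iff]
        intro i _ hi
        have := h1 i hi
        have : (0 : ℝ) ≤ (i : ℕ) := by positivity
        linarith
      rw [this]; simp [abs_of_nonneg hr0]
    · linarith
  · by_cases hr : (M : ℝ) - r < 1 / 2
    · have : k = M := by
        rw [hk]
        have : Finset.univ.filter P = Finset.univ := by
          rw [Finset.filter_eq_self]
          intro i _
          by_contra hi
          have := h2 i hi
          have h5 : ((i : ℕ) : ℝ) + 1 ≤ M := by exact_mod_cast i.2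
          linarith
        rw [this]; simp
      rw [this, abs_sub_comm, abs_of_nonneg (by linarith)]
    · linarith

/-- **Quantile lemma.** -/
theorem quantile {a b : ℝ} (hab : a ≤ b) (ρ : ℝ → ℝ) (hρ : Continuous ρ)
    (hρ0 : ∀ t ∈ Icc a b, 0 ≤ ρ t) (M : ℕ) (hM : ∫ t in a..b, ρ t = M) :
    ∃ z : Fin M → ℝ, (∀ i, z i ∈ Icc a b) ∧
      ∀ g g' : ℝ → ℝ, (∀ t, HasDerivAt g (g' t) t) → Continuous g' →
        |∑ i, g (z i) - ∫ t in a..b, g t * ρ t| ≤
          ∫ t in a..b, |g' t| *
            min (1 / 2) (min (∫ s in a..t, ρ s) (M - ∫ s in a..t, ρ s)) := by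
  set R : ℝ → ℝ := fun t => ∫ s in a..t, ρ s with hR
  have hRd : ∀ t, HasDerivAt R (ρ t) t := fun t =>
    intervalIntegral.integral_hasDerivAt_right (hρ.intervalIntegrable _ _)
      (hρ.stronglyMeasurableAtFilter _ _) hρ.continuousAt
  have hRc : Continuous R := continuous_iff_continuousAt.2 fun t => (hRd t).continuousAt
  have hRa : R a = 0 := by simp [hR]
  have hRb : R b = M := hM
  have hmono : MonotoneOn R (Icc a b) := by
    intro x hx y hy hxy
    have : R y - R x = ∫ s in x..y, ρ s := by
      simp only [hR]
      rw [intervalIntegral.integral_interval_sub_left (hρ.intervalIntegrable _ _)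
        (hρ.intervalIntegrable _ _)]
    have h2 : 0 ≤ ∫ s in x..y, ρ s := by
      apply intervalIntegral.integral_nonneg hxy
      intro u hu
      exact hρ0 u ⟨hx.1.trans hu.1, hu.2.trans hy.2⟩
    linarith
  have hex : ∀ i : Fin M, ∃ z ∈ Icc a b, R z = (i : ℝ) + 1 / 2 := by
    intro i
    have h1 : (i : ℝ) + 1 / 2 ∈ Icc (R a) (R b) := by
      rw [hRa, hRb]
      have h5 : ((i : ℕ) : ℝ) + 1 ≤ M := by exact_mod_cast i.2
      have : (0 : ℝ) ≤ (i : ℕ) := by positivity
      constructor <;> linarith
    obtain ⟨z, hz, hz'⟩ := intermediate_value_Icc hab hRc.continuousOn h1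
    exact ⟨z, hz, hz'⟩
  choose z hz hRz using hex
  refine ⟨z, hz, ?_⟩
  intro g g' hg hg'
  classical
  set K : ℝ → ℝ := fun t => ((Finset.univ.filter (fun i => z i ≤ t)).card : ℝ) with hK
  have hbound : ∀ t ∈ Icc a b, |R t - K t| ≤ min (1 / 2) (min (R t) (M - R t)) := by
    intro t ht
    apply count_bound
    · rw [← hRa]; exact hmono (left_mem_Icc.2 hab) ht ht.1
    · rw [← hRb]; exact hmono ht (right_mem_Icc.2 hab) ht.2
    · intro i hi
      rw [← hRz i]; exact hmono (hz i) ht hi
    · intro i hi
      push Not at hi
      rw [← hRz i]; exact hmono ht (hz i) hi.le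
  have hgc : Continuous g := continuous_iff_continuousAt.2 fun t => (hg t).continuousAt
  have hg'i : ∀ u v, IntervalIntegrable g' volume u v := fun u v => hg'.intervalIntegrable u v
  have hind : ∀ i, ∫ t in a..b, (if z i ≤ t then g' t else 0) = g b - g (z i) := by
    intro i
    have h1 : ∫ t in (z i)..b, g' t = g b - g (z i) :=
      intervalIntegral.integral_eq_sub_of_hasDerivAt (fun t _ => hg t) (hg'i _ _)
    rw [← h1]
    rw [← intervalIntegral.integral_add_adjacent_intervals (b := z i)]
    · have h2 : ∫ t in a..(z i), (if z i ≤ t then g' t else 0) = 0 := by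
        rw [intervalIntegral.integral_of_le (hz i).1]
        rw [← integral_Ioc_eq_integral_Ioo.symm]
        apply setIntegral_eq_zero_of_forall_eq_zero
        intro t ht
        rw [if_neg (not_le.2 ht.2)]
      rw [h2, zero_add]
      apply intervalIntegral.integral_congr
      intro t ht
      rw [uIcc_of_le (hz i).2] at ht
      simp only [if_pos ht.1]
    · apply IntervalIntegrable.mono_fun (hg'i a (z i))
      · apply Measurable.aestronglyMeasurable
        exact Measurable.ite measurableSet_Ici hg'.measurable measurable_const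
      · apply Filter.Eventually.of_forall
        intro t
        dsimp only
        split_ifs <;> simp
    · apply IntervalIntegrable.mono_fun (hg'i (z i) b)
      · apply Measurable.aestronglyMeasurable
        exact Measurable.ite measurableSet_Ici hg'.measurable measurable_const
      · apply Filter.Eventually.of_forall
        intro t
        dsimp only
        split_ifs <;> simp
  have hindi : ∀ i, IntervalIntegrable (fun t => (if z i ≤ t then g' t else 0)) volume a b := by
    intro i
    apply IntervalIntegrable.mono_fun (hg'i a b)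
    · apply Measurable.aestronglyMeasurable
      exact Measurable.ite measurableSet_Ici hg'.measurable measurable_const
    · apply Filter.Eventually.of_forall
      intro t
      dsimp only
      split_ifs <;> simp
  have hsum : ∫ t in a..b, g' t * K t = M * g b - ∑ i, g (z i) := by
    have h1 : (fun t => g' t * K t) = fun t => ∑ i, (if z i ≤ t then g' t else 0) := by
      funext t
      simp only [hK]
      rw [← Finset.sum_filter, Finset.sum_const, nsmul_eq_mul, mul_comm]
    rw [h1, intervalIntegral.integral_finsetSum (fun i _ => hindi i)]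
    rw [Finset.sum_congr rfl (fun i _ => hind i), Finset.sum_sub_distrib]
    simp
  have hKi : IntervalIntegrable (fun t => g' t * K t) volume a b := by
    have h1 : (fun t => g' t * K t) = fun t => ∑ i, (if z i ≤ t then g' t else 0) := by
      funext t
      simp only [hK]
      rw [← Finset.sum_filter, Finset.sum_const, nsmul_eq_mul, mul_comm]
    rw [h1]
    rw [show (fun t => ∑ i, (if z i ≤ t then g' t else 0))
      = ∑ i, fun t => (if z i ≤ t then g' t else 0) from by funext t; simp]
    exact IntervalIntegrable.sum (Finset.univ) (fun i _ => hindi i)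
  have hparts : ∫ t in a..b, g t * ρ t = g b * M - ∫ t in a..b, g' t * R t := by
    have := intervalIntegral.integral_mul_deriv_eq_deriv_mul (a := a) (b := b) (u := g) (v := R)
      (u' := g') (v' := ρ) (fun t _ => hg t) (fun t _ => hRd t) (hg'i _ _)
      (hρ.intervalIntegrable _ _)
    rw [this, hRa, hRb]
    ring
  have hRi : IntervalIntegrable (fun t => g' t * R t) volume a b :=
    (hg'.mul hRc).intervalIntegrable _ _
  have hdiff : ∑ i, g (z i) - ∫ t in a..b, g t * ρ t = ∫ t in a..b, g' t * (R t - K t) := by
    have : ∫ t in a..b, g' t * (R t - K t) = (∫ t in a..b, g' t * R t) - ∫ t in a..b, g' t * K t := by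
      rw [← intervalIntegral.integral_sub hRi hKi]
      congr 1
      funext t
      ring
    rw [this, hsum, hparts]
    ring
  rw [hdiff]
  have hmin : Continuous fun t => min (1 / 2) (min (R t) (M - R t)) :=
    continuous_const.min (hRc.min (continuous_const.sub hRc))
  have hDi : IntervalIntegrable (fun t => g' t * (R t - K t)) volume a b := by
    have := hRi.sub hKi
    convert this using 1
    funext t
    simp [mul_sub]
  calc |∫ t in a..b, g' t * (R t - K t)| ≤ ∫ t in a..b, |g' t * (R t - K t)| :=
        intervalIntegral.abs_integral_le_integral_abs hab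
    _ ≤ ∫ t in a..b, |g' t| * min (1 / 2) (min (R t) (M - R t)) := by
        apply intervalIntegral.integral_mono_on hab hDi.abs
        · exact (hg'.abs.mul hmin).intervalIntegrable _ _
        · intro t ht
          rw [abs_mul]
          exact mul_le_mul_of_nonneg_left (hbound t ht) (abs_nonneg _)

end Pool.Agent.H89.Cheb
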