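import Pool.Agent.H89.Cheb.Basic
import Pool.Agent.H89.Cheb.Quantile

set_option autoImplicit false
open MeasureTheory intervalIntegral Real Set Polynomial

namespace Pool.Agent.H89.Cheb

lemma abs_sin_nat_mul_le (m : ℕ) (x : ℝ) : |sin (m * x)| ≤ m * |sin x| := by
  induction m with
  | zero => simp
  | succ m ih =>
    have : ((m + 1 : ℕ) : ℝ) * x = m * x + x := by push_cast; ring
    rw [this, sin_add]
    calc |sin (m * x) * cos x + cos (m * x) * sin x|
        ≤ |sin (m * x) * cos x| + |cos (m * x) * sin x| := abs_add_le _ _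
      _ ≤ |sin (m * x)| * 1 + 1 * |sin x| := by
          rw [abs_mul, abs_mul]
          gcongr
          · exact abs_cos_le_one _
          · exact abs_cos_le_one _
      _ ≤ ((m + 1 : ℕ) : ℝ) * |sin x| := by push_cast; linarith

lemma NearExact.reindex {ι κ : Type*} [Fintype ι] [Fintype κ] (e : ι ≃ κ) {ε : ℝ} {q : ℕ}
    {x : ι → ℝ} (h : NearExact ε q x) : NearExact ε q (x ∘ e.symm) := by
  intro g hg
  have h1 := h g hg
  have h2 : ∑ i, g.eval (cos ((x ∘ e.symm) i)) = ∑ i, g.eval (cos (x i)) := by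
    rw [← Equiv.sum_comp e]
    simp
  rw [h2, ← Fintype.card_congr e]
  exact h1

lemma Exact.reindex {ι κ : Type*} [Fintype ι] [Fintype κ] (e : ι ≃ κ) {q : ℕ}
    {x : ι → ℝ} (h : Exact q x) : Exact q (x ∘ e.symm) := by
  intro g hg
  have h1 := h g hg
  have h2 : ∑ i, g.eval (cos ((x ∘ e.symm) i)) = ∑ i, g.eval (cos (x i)) := by
    rw [← Equiv.sum_comp e]
    simp
  rw [h2, ← Fintype.card_congr e]
  exact h1

lemma hasDerivAt_eval_cos (g : ℝ[X]) (t : ℝ) :
    HasDerivAt (fun t => g.eval (cos t)) (-(g.derivative.eval (cos t)) * sin t) t := by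
  have h1 := (g.hasDerivAt (cos t)).comp t (hasDerivAt_cos t)
  rw [mul_neg, ← neg_mul] at h1
  exact h1

lemma continuous_eval_cos (g : ℝ[X]) : Continuous (fun t : ℝ => g.eval (cos t)) :=
  g.continuous.comp continuous_cos

/-- pointwise estimate turned into `NearExact`-type bound -/
lemma quantile_cos (ρ : ℝ → ℝ) (hρ : Continuous ρ) (hρ0 : ∀ t ∈ Icc 0 π, 0 ≤ ρ t)
    (M : ℕ) (hM : ∫ t in (0:ℝ)..π, ρ t = M) (K : ℝ)
    (hK : ∀ t ∈ Icc 0 π, min (1 / 2) (min (∫ s in (0:ℝ)..t, ρ s) (M - ∫ s in (0:ℝ)..t, ρ s)) ≤ K * sin t) :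
    ∃ z : Fin M → ℝ, (∀ i, z i ∈ Icc 0 π) ∧
      ∀ g : ℝ[X], |∑ i, g.eval (cos (z i)) - ∫ t in (0:ℝ)..π, g.eval (cos t) * ρ t| ≤
        K * ∫ t in (0:ℝ)..π, |g.derivative.eval (cos t)| * sin t ^ 2 := by
  obtain ⟨z, hz, hz2⟩ := quantile pi_pos.le ρ hρ hρ0 M hM
  refine ⟨z, hz, fun g => ?_⟩
  refine (hz2 (fun t => g.eval (cos t)) (fun t => -(g.derivative.eval (cos t)) * sin t)
    (hasDerivAt_eval_cos g) ?_).trans ?_
  · exact ((continuous_eval_cos _).neg).mul continuous_sin
  · rw [← intervalIntegral.integral_const_mul]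
    have hR : Continuous fun t => ∫ s in (0:ℝ)..t, ρ s :=
      intervalIntegral.continuous_primitive (fun a b => hρ.intervalIntegrable a b) 0
    apply intervalIntegral.integral_mono_on pi_pos.le
    · apply Continuous.intervalIntegrable
      exact ((((continuous_eval_cos _).neg).mul continuous_sin).abs).mul
        (continuous_const.min (hR.min (continuous_const.sub hR)))
    · apply Continuous.intervalIntegrable
      exact continuous_const.mul (((continuous_eval_cos _).abs).mul (continuous_sin.pow 2))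
    · intro t ht
      have hs : 0 ≤ sin t := sin_nonneg_of_mem_Icc ht
      rw [abs_mul, abs_neg, abs_of_nonneg hs]
      calc |g.derivative.eval (cos t)| * sin t
            * min (1 / 2) (min (∫ s in (0:ℝ)..t, ρ s) (M - ∫ s in (0:ℝ)..t, ρ s))
          ≤ |g.derivative.eval (cos t)| * sin t * (K * sin t) :=
            mul_le_mul_of_nonneg_left (hK t ht) (mul_nonneg (abs_nonneg _) hs)
        _ = K * (|g.derivative.eval (cos t)| * sin t ^ 2) := by ring

/-- symmetric densities: it suffices to check the bound on `[0, π/2]`. -/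
lemma min_bound_of_half (ρ : ℝ → ℝ) (hρ : Continuous ρ) (hsym : ∀ t, ρ (π - t) = ρ t)
    (M : ℕ) (hM : ∫ t in (0:ℝ)..π, ρ t = M) (K : ℝ)
    (hK : ∀ t ∈ Icc 0 (π / 2), min (1 / 2) (∫ s in (0:ℝ)..t, ρ s) ≤ K * sin t) :
    ∀ t ∈ Icc 0 π, min (1 / 2) (min (∫ s in (0:ℝ)..t, ρ s) (M - ∫ s in (0:ℝ)..t, ρ s)) ≤ K * sin t := by
  intro t ht
  rcases le_total t (π / 2) with h | h
  · refine le_trans ?_ (hK t ⟨ht.1, h⟩)
    exact le_min (min_le_left _ _) ((min_le_right _ _).trans (min_le_left _ _))
  · have h1 : (M : ℝ) - ∫ s in (0:ℝ)..t, ρ s = ∫ s in (0:ℝ)..(π - t), ρ s := by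
      rw [← hM, intervalIntegral.integral_interval_sub_left (hρ.intervalIntegrable _ _)
        (hρ.intervalIntegrable _ _)]
      have := intervalIntegral.integral_comp_sub_left (a := t) (b := π) ρ π
      simp only [hsym, sub_self] at this
      exact this
    rw [h1]
    have h2 := hK (π - t) ⟨by linarith [ht.2], by linarith⟩
    rw [sin_pi_sub] at h2
    refine le_trans ?_ h2
    exact le_min (min_le_left _ _) ((min_le_right _ _).trans (min_le_right _ _))

/-- **Base seed**: quantile nodes. -/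
theorem seed_base (q M : ℕ) (hq : 0 < q) (ε : ℝ) (hε : 0 < ε)
    (hc : π ^ 2 * q ^ 2 ≤ 32 * ε ^ 2 * M) :
    ∃ x : Fin M → ℝ, (∀ i, x i ∈ Icc 0 π) ∧ NearExact ε q x := by
  have hq' : (0:ℝ) < q := by exact_mod_cast hq
  set ρ : ℝ → ℝ := fun t => (M / 2 : ℝ) * sin t with hρdef
  have hρ : Continuous ρ := continuous_const.mul continuous_sin
  have hρ0 : ∀ t ∈ Icc 0 π, 0 ≤ ρ t := fun t ht =>
    mul_nonneg (by positivity) (sin_nonneg_of_mem_Icc ht)
  have hR : ∀ t : ℝ, ∫ s in (0:ℝ)..t, ρ s = (M / 2 : ℝ) * (1 - cos t) := by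
    intro t
    simp only [hρdef]
    rw [intervalIntegral.integral_const_mul, integral_sin, cos_zero]
  have hM : ∫ t in (0:ℝ)..π, ρ t = M := by
    rw [hR, cos_pi]; ring
  have hMpos : (0:ℝ) < M := by
    by_contra h
    push Not at h
    have hMz : (M:ℝ) = 0 := le_antisymm h (by positivity)
    rw [hMz] at hc
    have : 0 < π ^ 2 * (q:ℝ) ^ 2 := by positivity
    linarith
  obtain ⟨z, hz, hz2⟩ := quantile_cos ρ hρ hρ0 M hM (ε * (M / q)) (by
    apply min_bound_of_half ρ hρ _ M hM
    · intro t ht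
      have hsin := mul_le_sin ht.1 ht.2
      have ht0 := ht.1
      rw [hR]
      have hcos : 1 - cos t ≤ t ^ 2 / 2 := by
        have := one_sub_sq_div_two_le_cos (x := t)
        linarith
      by_cases h : t ≤ 8 * ε / (π * q)
      · refine (min_le_right _ _).trans ?_
        calc (M / 2 : ℝ) * (1 - cos t) ≤ (M / 2 : ℝ) * (t ^ 2 / 2) := by gcongr
          _ = M / 4 * t * t := by ring
          _ ≤ M / 4 * t * (8 * ε / (π * q)) := by gcongr
          _ = ε * (M / q) * (2 / π * t) := by field_simp; ring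
          _ ≤ ε * (M / q) * sin t := by gcongr
      · push Not at h
        refine (min_le_left _ _).trans ?_
        calc (1:ℝ) / 2 ≤ ε * (M / q) * (2 / π * (8 * ε / (π * q))) := by
              rw [show ε * (M / q) * (2 / π * (8 * ε / (π * q))) = (16 * ε ^ 2 * M) / (π ^ 2 * q ^ 2) by
                field_simp; ring]
              rw [div_le_div_iff₀ (by norm_num) (by positivity)]
              linarith
          _ ≤ ε * (M / q) * (2 / π * t) := by gcongr
          _ ≤ ε * (M / q) * sin t := by gcongr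
    · intro t
      simp only [hρdef, sin_pi_sub])
  refine ⟨z, hz, fun g _ => ?_⟩
  have := hz2 g
  rw [Fintype.card_fin]
  convert this using 3
  rw [← intervalIntegral.integral_const_mul]
  apply intervalIntegral.integral_congr
  intro t _
  simp only [hρdef]
  ring

/-- **Pulled back seed.** -/
theorem seed_pull {ι : Type*} [Fintype ι] (p m : ℕ) (hp : 0 < p) (hm : 0 < m) (φ : ι → ℝ)
    (hφ : Exact p φ) (ε : ℝ) (hε : 0 < ε)
    (hc : π ^ 4 * p ^ 4 ≤ 6144 * ε ^ 4 * (Fintype.card ι : ℝ) ^ 3) :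
    ∃ x : Fin (m ^ 2 * Fintype.card ι) → ℝ, (∀ i, x i ∈ Icc 0 π) ∧ NearExact ε (p * m) x := by
  have hm' : (0:ℝ) < m := by exact_mod_cast hm
  have hp' : (0:ℝ) < p := by exact_mod_cast hp
  set N := Fintype.card ι with hN
  have hNpos : (0:ℝ) < N := by
    by_contra h
    push Not at h
    have hMz : (N:ℝ) = 0 := le_antisymm h (by positivity)
    rw [hMz] at hc
    have : 0 < π ^ 4 * (p:ℝ) ^ 4 := by positivity
    norm_num at hc
    linarith
  have hmm : m * N ≤ m ^ 2 * N := Nat.mul_le_mul_right _ (by nlinarith)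
  set M := m ^ 2 * N - m * N with hMdef
  have hMr : (M : ℝ) = m ^ 2 * N - m * N := by
    rw [hMdef, Nat.cast_sub hmm]; push_cast; ring
  set ρ : ℝ → ℝ := fun t => (N * m / 2 : ℝ) * (m * sin t - |sin (m * t)|) with hρdef
  have hρ : Continuous ρ := by fun_prop
  have hρ0 : ∀ t ∈ Icc 0 π, 0 ≤ ρ t := by
    intro t ht
    have := abs_sin_nat_mul_le m t
    rw [abs_of_nonneg (sin_nonneg_of_mem_Icc ht)] at this
    exact mul_nonneg (by positivity) (by linarith)
  have hone := integral_pull m hm (fun _ => 1) continuous_const (fun _ => rfl) (fun _ => rfl)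
  have hsm : ∫ ψ in (0:ℝ)..π, |sin (m * ψ)| = 2 := by
    simp only [one_mul, integral_sin, cos_zero, cos_pi, Finset.sum_const, Finset.card_range,
      nsmul_eq_mul] at hone
    have : (m:ℝ) * ∫ ψ in (0:ℝ)..π, |sin (m * ψ)| = m * 2 := by rw [← hone]; ring
    exact mul_left_cancel₀ hm'.ne' this
  have hM : ∫ t in (0:ℝ)..π, ρ t = M := by
    simp only [hρdef]
    rw [intervalIntegral.integral_const_mul, intervalIntegral.integral_sub,
      intervalIntegral.integral_const_mul, hsm, integral_sin, cos_zero, cos_pi, hMr]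
    · ring
    · exact (continuous_const.mul continuous_sin).intervalIntegrable _ _
    · apply Continuous.intervalIntegrable; fun_prop
  have hρle : ∀ t : ℝ, 0 ≤ t → ρ t ≤ N * m ^ 4 / 12 * t ^ 3 := by
    intro t ht
    have h1 : m * t - (m * t) ^ 3 / 6 ≤ |sin (m * t)| :=
      (sin_ge_sub_cube (by positivity)).trans (le_abs_self _)
    have h2 : sin t ≤ t := sin_le ht
    have h3 : m * sin t - |sin (m * t)| ≤ (m * t) ^ 3 / 6 := by nlinarith
    calc ρ t ≤ (N * m / 2 : ℝ) * ((m * t) ^ 3 / 6) := by simp only [hρdef]; gcongr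
      _ = N * m ^ 4 / 12 * t ^ 3 := by ring
  have hR : ∀ t : ℝ, 0 ≤ t → ∫ s in (0:ℝ)..t, ρ s ≤ N * (m * t) ^ 4 / 48 := by
    intro t ht
    calc ∫ s in (0:ℝ)..t, ρ s ≤ ∫ s in (0:ℝ)..t, N * m ^ 4 / 12 * s ^ 3 := by
          apply intervalIntegral.integral_mono_on ht (hρ.intervalIntegrable _ _)
          · apply Continuous.intervalIntegrable; fun_prop
          · intro s hs
            exact hρle s hs.1
      _ = N * (m * t) ^ 4 / 48 := by
          rw [intervalIntegral.integral_const_mul, integral_pow]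
          norm_num
          ring
  obtain ⟨z, hz, hz2⟩ := quantile_cos ρ hρ hρ0 M hM (ε * (m * N / p)) (by
    apply min_bound_of_half ρ hρ _ M hM
    · intro t ht
      have hsin := mul_le_sin ht.1 ht.2
      have ht0 := ht.1
      set u := m * t with hu
      have hu0 : 0 ≤ u := by positivity
      have hgoal : min (1/2) (N * u ^ 4 / 48) ≤ 2 * ε / π * (N / p) * u := by
        by_cases h : u ^ 3 ≤ 96 * ε / (π * p)
        · refine (min_le_right _ _).trans ?_
          calc (N:ℝ) * u ^ 4 / 48 = N * u / 48 * u ^ 3 := by ring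
            _ ≤ N * u / 48 * (96 * ε / (π * p)) := by gcongr
            _ = 2 * ε / π * (N / p) * u := by field_simp; ring
        · push Not at h
          refine (min_le_left _ _).trans ?_
          have h2 : (π * p / (4 * ε * N)) ^ 3 ≤ 96 * ε / (π * p) := by
            rw [div_pow, div_le_div_iff₀ (by positivity) (by positivity)]
            nlinarith
          have h3 : π * p / (4 * ε * N) ≤ u := by
            have h4 : (π * p / (4 * ε * N)) ^ 3 ≤ u ^ 3 := h2.trans h.le
            exact le_of_pow_le_pow_left₀ (by norm_num) hu0 h4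
          calc (1:ℝ) / 2 = 2 * ε / π * (N / p) * (π * p / (4 * ε * N)) := by field_simp; norm_num
            _ ≤ _ := by gcongr
      calc min (1/2) (∫ s in (0:ℝ)..t, ρ s) ≤ min (1/2) (N * u ^ 4 / 48) :=
            min_le_min_left _ (hR t ht0)
        _ ≤ 2 * ε / π * (N / p) * u := hgoal
        _ = ε * (m * N / p) * (2 / π * t) := by rw [hu]; field_simp
        _ ≤ ε * (m * N / p) * sin t := by gcongr
    · intro t
      simp only [hρdef, sin_pi_sub]
      congr 2
      rw [show (m:ℝ) * (π - t) = m * π - m * t by ring, sin_nat_mul_pi_sub, abs_neg, abs_mul, abs_pow,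
        abs_neg, abs_one, one_pow, one_mul])
  have hcard : Fintype.card ((ι × Fin m) ⊕ Fin M) = m ^ 2 * N := by
    simp only [Fintype.card_sum, Fintype.card_prod, Fintype.card_fin, ← hN]
    rw [mul_comm N m]
    omega
  set x0 : (ι × Fin m) ⊕ Fin M → ℝ := Sum.elim
    (fun jk => arccos (cos ((φ jk.1 + 2 * π * (jk.2 : ℕ)) / m))) z with hx0
  have hx0mem : ∀ i, x0 i ∈ Icc 0 π := by
    rintro (jk | i)
    · exact ⟨arccos_nonneg _, arccos_le_pi _⟩
    · exact hz i
  have hx0ne : NearExact ε (p * m) x0 := by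
    intro f hf
    rw [hcard]
    obtain ⟨g, hg, hgav⟩ := exists_avg p m hm f hf
    have h1 : ∑ i, f.eval (cos (x0 i)) = ∑ j, m * g.eval (cos (φ j)) + ∑ i, f.eval (cos (z i)) := by
      rw [Fintype.sum_sum_type]
      congr 1
      rw [Fintype.sum_prod_type]
      apply Finset.sum_congr rfl
      intro j _
      rw [← hgav, ← Fin.sum_univ_eq_sum_range (fun k => f.eval (cos ((φ j + 2 * π * k) / m))) m]
      apply Finset.sum_congr rfl
      intro k _
      simp only [hx0, Sum.elim_inl]
      rw [cos_arccos (neg_one_le_cos _) (cos_le_one _)]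
    have h2 : ∑ j, m * g.eval (cos (φ j)) = (N * m / 2 : ℝ) * ∫ ψ in (0:ℝ)..π, f.eval (cos ψ) * |sin (m * ψ)| := by
      rw [← Finset.mul_sum, hφ g hg, ← hN]
      have h3 := integral_pull m hm (fun ψ => f.eval (cos ψ)) (continuous_eval_cos f)
        (fun x => by simp only [cos_neg]) (fun x => by simp only [cos_add_two_pi])
      have h4 : ∑ k ∈ Finset.range m, ∫ φ in (0:ℝ)..π, f.eval (cos ((φ + 2 * π * k) / m)) * sin φ
          = m * ∫ t in (0:ℝ)..π, g.eval (cos t) * sin t := by
        rw [← intervalIntegral.integral_finsetSum, ← intervalIntegral.integral_const_mul]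
        · apply intervalIntegral.integral_congr
          intro t _
          simp only
          rw [← Finset.sum_mul, hgav]
          ring
        · intro k _
          apply Continuous.intervalIntegrable
          exact (f.continuous.comp (continuous_cos.comp (by fun_prop))).mul continuous_sin
      rw [h4] at h3
      calc (m:ℝ) * (N / 2 * ∫ t in (0:ℝ)..π, g.eval (cos t) * sin t)
          = N / 2 * (m * ∫ t in (0:ℝ)..π, g.eval (cos t) * sin t) := by ring
        _ = _ := by rw [h3]; ring
    have h5 : ((m ^ 2 * N : ℕ) / 2 : ℝ) * ∫ t in (0:ℝ)..π, f.eval (cos t) * sin t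
        = (N * m / 2 : ℝ) * (∫ ψ in (0:ℝ)..π, f.eval (cos ψ) * |sin (m * ψ)|)
          + ∫ t in (0:ℝ)..π, f.eval (cos t) * ρ t := by
      rw [← intervalIntegral.integral_const_mul, ← intervalIntegral.integral_const_mul,
        ← intervalIntegral.integral_add]
      · apply intervalIntegral.integral_congr
        intro t _
        simp only [hρdef]
        push_cast
        ring
      · apply Continuous.intervalIntegrable
        exact continuous_const.mul ((continuous_eval_cos f).mul (by fun_prop))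
      · exact ((continuous_eval_cos f).mul hρ).intervalIntegrable _ _
    rw [h1, h2, h5]
    have h6 := hz2 f
    have h7 : ε * (((m ^ 2 * N : ℕ) : ℝ) / ((p * m : ℕ) : ℝ)) = ε * (m * N / p) := by
      push_cast
      field_simp
    rw [h7]
    convert h6 using 2
    ring
  let e : ((ι × Fin m) ⊕ Fin M) ≃ Fin (m ^ 2 * N) := Fintype.equivFinOfCardEq hcard
  exact ⟨x0 ∘ e.symm, fun i => hx0mem _, hx0ne.reindex e⟩

end Pool.Agent.H89.Cheb
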